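import Pool.Agent.Lib.MP_5b6025_nt.RM.Spec

/-!
# Ramified primes: modules RAD and ALG
-/

set_option autoImplicit false

open Polynomial NumberField

namespace Pool.Agent.Lib.MP5b6025.RM

namespace ALGM

/-! ## The square of the radical -/

open UniqueFactorizationMonoid in
theorem rad {A : Type} [CommRing A] [IsDedekindDomain A] (a : A) (ha : a ≠ 0)
    (h : ∀ P : Ideal A, P.IsPrime → a ∈ P → a ∈ P ^ 2) : a ∈ (Ideal.span {a}).radical ^ 2 := by
  classical
  set J := (Ideal.span {a}).radical with hJ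
  have haJ : a ∈ J := Ideal.le_radical (Ideal.mem_span_singleton_self a)
  have ha0 : Ideal.span {a} ≠ (0 : Ideal A) := by
    rw [Ideal.zero_eq_bot, Ne, Ideal.span_singleton_eq_bot]
    exact ha
  have hJ0 : J ≠ 0 := by
    intro h0
    rw [h0] at haJ
    exact ha (by simpa using haJ)
  have hrad : IsRadical J := by
    intro n I hI
    rw [Ideal.dvd_iff_le] at hI ⊢
    intro y hy
    have h1 : y ^ n ∈ J := hI (Ideal.pow_mem_pow hy n)
    have h2 : J.IsRadical := Ideal.radical_isRadical _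
    exact h2 ⟨n, h1⟩
  have hsq : Squarefree J := hrad.squarefree hJ0
  have hnd : (normalizedFactors J).Nodup :=
    (squarefree_iff_nodup_normalizedFactors hJ0).1 hsq
  have hdvd : J ^ 2 ∣ Ideal.span {a} := by
    rw [dvd_iff_normalizedFactors_le_normalizedFactors (pow_ne_zero 2 hJ0) ha0,
      normalizedFactors_pow, Multiset.le_iff_count]
    intro P
    rw [Multiset.count_nsmul]
    have h1 := Multiset.nodup_iff_count_le_one.1 hnd P
    by_cases hP : P ∈ normalizedFactors J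
    · have hPp : Prime P := prime_of_normalized_factor P hP
      have hPi : P.IsPrime := Ideal.isPrime_of_prime hPp
      have hPJ : P ∣ J := dvd_of_mem_normalizedFactors hP
      have haP : a ∈ P := (Ideal.dvd_iff_le.1 hPJ) haJ
      have h2 : P ^ 2 ∣ Ideal.span {a} := by
        rw [Ideal.dvd_iff_le, Ideal.span_singleton_le_iff_mem]
        exact h P hPi haP
      have h3 : ((2 : ℕ) : ℕ∞) ≤ emultiplicity P (Ideal.span {a}) :=
        pow_dvd_iff_le_emultiplicity.1 h2
      rw [le_emultiplicity_iff_replicate_le_normalizedFactors hPp.irreducible ha0,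
        normalize_eq] at h3
      have h4 := Multiset.le_count_iff_replicate_le.2 h3
      omega
    · rw [Multiset.count_eq_zero_of_notMem hP]
      omega
  exact (Ideal.dvd_iff_le.1 hdvd) (Ideal.mem_span_singleton_self a)

/-! ## The ring -/

section Ring

variable {p : ℕ} [hp : Fact p.Prime] {R : Subring ℝ}

theorem pow_mem_rat (hs : ∀ s : ℕ, ¬ p ∣ s → (1 / (s : ℝ)) ∈ R) (r : ℚ) :
    ∃ j : ℕ, (p : ℝ) ^ j * (r : ℝ) ∈ R := by
  obtain ⟨j, s, hs', hd⟩ := Nat.exists_eq_pow_mul_and_not_dvd r.den_nz p hp.1.one_lt.ne'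
  refine ⟨j, ?_⟩
  have hp0 : (p : ℝ) ≠ 0 := by exact_mod_cast hp.1.ne_zero
  have hs0 : (s : ℝ) ≠ 0 := by
    have : s ≠ 0 := fun h => hs' (h ▸ dvd_zero p)
    exact_mod_cast this
  have h1 : (p : ℝ) ^ j * (r : ℝ) = (r.num : ℝ) * (1 / (s : ℝ)) := by
    have h2 : (r : ℝ) = (r.num : ℝ) / (r.den : ℝ) := Rat.cast_def r
    rw [h2, hd]
    push_cast
    field_simp
  rw [h1]
  exact R.mul_mem (intCast_mem R _) (hs s hs')

theorem pow_mem_poly (hs : ∀ s : ℕ, ¬ p ∣ s → (1 / (s : ℝ)) ∈ R) {x : ℝ} (hx : x ∈ R)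
    (f : ℚ[X]) : ∃ j : ℕ, (p : ℝ) ^ j * aeval x f ∈ R := by
  induction f using Polynomial.induction_on' with
  | add f g hf hg =>
    obtain ⟨i, hi⟩ := hf
    obtain ⟨j, hj⟩ := hg
    refine ⟨i + j, ?_⟩
    have h1 : (p : ℝ) ^ (i + j) * aeval x (f + g) =
        (p : ℝ) ^ j * ((p : ℝ) ^ i * aeval x f) + (p : ℝ) ^ i * ((p : ℝ) ^ j * aeval x g) := by
      rw [map_add]
      ring
    rw [h1]
    have hpR : (p : ℝ) ∈ R := natCast_mem R _
    exact R.add_mem (R.mul_mem (R.pow_mem hpR _) hi) (R.mul_mem (R.pow_mem hpR _) hj)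
  | monomial n a =>
    obtain ⟨j, hj⟩ := pow_mem_rat hs a
    refine ⟨j, ?_⟩
    rw [aeval_monomial, ← mul_assoc]
    exact R.mul_mem hj (R.pow_mem hx _)

theorem descent (hF : ∀ y ∈ R, ∀ z ∈ R, y ^ p = p * z → y / p ∈ R) {η : ℝ} (hη : η ∈ R) :
    ∀ (k : ℕ) (z : ℝ), z ∈ R → η ^ (p ^ k) = p * z → η / p ∈ R := by
  have hp0 : (p : ℝ) ≠ 0 := by exact_mod_cast hp.1.ne_zero
  intro k
  induction k with
  | zero =>
    intro z hz h
    rw [pow_zero, pow_one] at h
    rw [h, mul_div_cancel_left₀ _ hp0]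
    exact hz
  | succ k ih =>
    intro z hz h
    rw [pow_succ, pow_mul] at h
    have h1 := hF (η ^ p ^ k) (R.pow_mem hη _) z hz h
    exact ih _ h1 (by field_simp)

theorem descent' (hF : ∀ y ∈ R, ∀ z ∈ R, y ^ p = p * z → y / p ∈ R) {η : ℝ} (hη : η ∈ R)
    (n : ℕ) (z : ℝ) (hz : z ∈ R) (h : η ^ n = p * z) : η / p ∈ R := by
  have h1 : n < p ^ n := Nat.lt_pow_self hp.1.one_lt
  refine descent hF hη n (z * η ^ (p ^ n - n)) (R.mul_mem hz (R.pow_mem hη _)) ?_
  rw [← mul_assoc, ← h, ← pow_add]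
  congr 1
  omega

theorem integral_mem (hF : ∀ y ∈ R, ∀ z ∈ R, y ^ p = p * z → y / p ∈ R) {θ : ℝ} (hθ : IsIntegral ℤ θ) :
    ∀ j : ℕ, (p : ℝ) ^ j * θ ∈ R → θ ∈ R := by
  have hp0 : (p : ℝ) ≠ 0 := by exact_mod_cast hp.1.ne_zero
  obtain ⟨f, hf, hf0⟩ := hθ
  have hpR : (p : ℝ) ∈ R := natCast_mem R _
  intro j
  induction j with
  | zero =>
    intro h
    simpa using h
  | succ j ih =>
    intro h
    refine ih ?_
    set n := f.natDegree with hn
    have e0 : ∑ i ∈ Finset.range n, (f.coeff i : ℝ) * θ ^ i + θ ^ n = 0 := by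
      have h1 : aeval θ f = 0 := hf0
      rw [aeval_eq_sum_range, Finset.sum_range_succ, ← hn] at h1
      have h2 : f.coeff n = 1 := hf.coeff_natDegree
      rw [h2, one_smul] at h1
      rw [← h1]
      congr 1
      refine Finset.sum_congr rfl fun i _ => ?_
      rw [zsmul_eq_mul]
    have key : ((p : ℝ) ^ (j + 1) * θ) ^ n = p * (-∑ i ∈ Finset.range n, (f.coeff i : ℝ) *
        ((p : ℝ) ^ ((j + 1) * (n - i) - 1) * ((p : ℝ) ^ (j + 1) * θ) ^ i)) := by
      have e1 : θ ^ n = -∑ i ∈ Finset.range n, (f.coeff i : ℝ) * θ ^ i := by linarith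
      rw [mul_pow, e1, mul_neg, mul_neg, Finset.mul_sum, Finset.mul_sum]
      congr 1
      refine Finset.sum_congr rfl fun i hi => ?_
      rw [Finset.mem_range] at hi
      have e2 : ((p : ℝ) ^ (j + 1)) ^ n =
          p * (p : ℝ) ^ ((j + 1) * (n - i) - 1) * ((p : ℝ) ^ (j + 1)) ^ i := by
        rw [← pow_succ', ← pow_mul, ← pow_mul, ← pow_add]
        congr 1
        have h3 : 1 ≤ (j + 1) * (n - i) := Nat.one_le_iff_ne_zero.2 (by
          apply Nat.mul_ne_zero
          · omega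
          · omega)
        have h4 : (j + 1) * n = (j + 1) * (n - i) + (j + 1) * i := by
          rw [← mul_add]
          congr 1
          omega
        omega
      rw [e2, mul_pow]
      ring
    have h5 := descent' hF h n _ (R.neg_mem (R.sum_mem fun i _ => R.mul_mem (intCast_mem R _)
      (R.mul_mem (R.pow_mem hpR _) (R.pow_mem h _)))) key
    have h6 : (p : ℝ) ^ (j + 1) * θ / p = (p : ℝ) ^ j * θ := by
      rw [pow_succ]
      field_simp
    rwa [h6] at h5

end Ring

end ALGM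

theorem specRAD : SpecRAD := fun _ _ _ a ha h => ALGM.rad a ha h

open ALGM in
theorem specALG : SpecALG := by
  intro p hp x R halg hx hs hF hram
  have hp0 : (p : ℝ) ≠ 0 := by exact_mod_cast hp.1.ne_zero
  set K := IntermediateField.adjoin ℚ {x} with hK
  have hfin : FiniteDimensional ℚ K :=
    IntermediateField.adjoin.finiteDimensional halg.isIntegral
  have hnf : NumberField K := { to_charZero := inferInstance, to_finiteDimensional := hfin }
  -- elements of K
  have hKpoly : ∀ θ : K, ∃ f : ℚ[X], aeval x f = (θ : ℝ) := by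
    intro θ
    have h1 : (θ : ℝ) ∈ Algebra.adjoin ℚ {x} := by
      have h2 := IntermediateField.adjoin_simple_toSubalgebra_of_isAlgebraic halg
      rw [← h2]
      exact θ.2
    rw [Algebra.adjoin_singleton_eq_range_aeval] at h1
    obtain ⟨f, hf⟩ := h1
    exact ⟨f, hf⟩
  -- integers of K
  have hint : ∀ θ : 𝓞 K, (((θ : K) : ℝ)) ∈ R := by
    intro θ
    obtain ⟨f, hf⟩ := hKpoly (θ : K)
    obtain ⟨j, hj⟩ := pow_mem_poly hs hx f
    rw [hf] at hj
    have h1 : IsIntegral ℤ ((θ : K) : ℝ) :=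
      (RingOfIntegers.isIntegral_coe θ).map (IsScalarTower.toAlgHom ℤ K ℝ)
    exact integral_mem hF h1 j hj
  have hpK : ((((p : ℕ) : 𝓞 K) : K) : ℝ) = (p : ℝ) := by simp
  -- elements of the radical
  have hrad : ∀ θ ∈ (Ideal.span {((p : ℕ) : 𝓞 K)}).radical, ((θ : K) : ℝ) / p ∈ R := by
    intro θ hθ
    obtain ⟨n, hn⟩ := hθ
    obtain ⟨ω, hω⟩ := Ideal.mem_span_singleton.1 hn
    refine descent' hF (hint θ) n ((ω : K) : ℝ) (hint ω) ?_
    have h1 := congrArg (fun z : 𝓞 K => ((z : K) : ℝ)) hω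
    simpa using h1
  have hmem : ((p : ℕ) : 𝓞 K) ∈ (Ideal.span {((p : ℕ) : 𝓞 K)}).radical ^ 2 := by
    refine specRAD (𝓞 K) _ ?_ hram
    exact_mod_cast hp.1.ne_zero
  have hall : ∀ z ∈ (Ideal.span {((p : ℕ) : 𝓞 K)}).radical ^ 2,
      ((z : K) : ℝ) / (p * p) ∈ R := by
    intro z hz
    rw [pow_two] at hz
    refine Submodule.mul_induction_on hz ?_ ?_
    · intro α hα β hβ
      have h1 : (((α * β : 𝓞 K) : K) : ℝ) / (p * p) =
          (((α : K) : ℝ) / p) * (((β : K) : ℝ) / p) := by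
        push_cast
        field_simp
      rw [h1]
      exact R.mul_mem (hrad α hα) (hrad β hβ)
    · intro α β hα hβ
      have h1 : (((α + β : 𝓞 K) : K) : ℝ) / (p * p) =
          ((α : K) : ℝ) / (p * p) + ((β : K) : ℝ) / (p * p) := by
        push_cast
        ring
      rw [h1]
      exact R.add_mem hα hβ
  have h1 := hall _ hmem
  rw [hpK] at h1
  have h2 : (p : ℝ) / (p * p) = 1 / p := by field_simp
  rwa [h2] at h1

end Pool.Agent.Lib.MP5b6025.RM
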