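import Pool.Agent.Lib.MP_5b6025_nt.RM.Spec2
import Pool.Agent.Lib.MP_5b6025_nt.RM.ALG

/-!
# Ramified primes, general form: module ALG2
-/

set_option autoImplicit false

open Polynomial NumberField

namespace Pool.Agent.Lib.MP5b6025.RM

namespace ALG2M

open UniqueFactorizationMonoid in
/-- A radical ideal `J ∋ a` such that `a ∈ P^2` for all primes `P ⊇ J`: then `a ∈ J^2`. -/
theorem rad_sq {A : Type} [CommRing A] [IsDedekindDomain A] (a : A) (ha : a ≠ 0) (J : Ideal A)
    (hJ : J.IsRadical) (haJ : a ∈ J)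
    (h : ∀ P : Ideal A, P.IsPrime → J ≤ P → a ∈ P ^ 2) : a ∈ J ^ 2 := by
  classical
  have ha0 : Ideal.span {a} ≠ (0 : Ideal A) := by
    rw [Ideal.zero_eq_bot, Ne, Ideal.span_singleton_eq_bot]
    exact ha
  have hJ0 : J ≠ 0 := by
    intro h0
    rw [h0] at haJ
    exact ha (by simpa using haJ)
  have hrad : IsRadical J := by
    intro n I hI
    rw [Ideal.dvd_iff_le] at hI ⊢
    intro y hy
    exact hJ ⟨n, hI (Ideal.pow_mem_pow hy n)⟩
  have hsq : Squarefree J := hrad.squarefree hJ0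
  have hnd : (normalizedFactors J).Nodup :=
    (squarefree_iff_nodup_normalizedFactors hJ0).1 hsq
  have hdvd : J ^ 2 ∣ Ideal.span {a} := by
    rw [dvd_iff_normalizedFactors_le_normalizedFactors (pow_ne_zero 2 hJ0) ha0,
      normalizedFactors_pow, Multiset.le_iff_count]
    intro P
    rw [Multiset.count_nsmul]
    have h1 := Multiset.nodup_iff_count_le_one.1 hnd P
    by_cases hP : P ∈ normalizedFactors J
    · have hPp : Prime P := prime_of_normalized_factor P hP
      have hPi : P.IsPrime := Ideal.isPrime_of_prime hPp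
      have hPJ : P ∣ J := dvd_of_mem_normalizedFactors hP
      have h2 : P ^ 2 ∣ Ideal.span {a} := by
        rw [Ideal.dvd_iff_le, Ideal.span_singleton_le_iff_mem]
        exact h P hPi (Ideal.dvd_iff_le.1 hPJ)
      have h3 : ((2 : ℕ) : ℕ∞) ≤ emultiplicity P (Ideal.span {a}) :=
        pow_dvd_iff_le_emultiplicity.1 h2
      rw [le_emultiplicity_iff_replicate_le_normalizedFactors hPp.irreducible ha0,
        normalize_eq] at h3
      have h4 := Multiset.le_count_iff_replicate_le.2 h3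
      omega
    · rw [Multiset.count_eq_zero_of_notMem hP]
      omega
  exact (Ideal.dvd_iff_le.1 hdvd) (Ideal.mem_span_singleton_self a)

/-- A prime `P` which contains the radical ideal `I ≠ 0`: there is `C` with `P C ≤ I`, not in `P`. -/
theorem cofactor {A : Type} [CommRing A] [IsDedekindDomain A] (I P : Ideal A) (hI0 : I ≠ ⊥)
    (hI : I.IsRadical) (hP : P.IsPrime) (hIP : I ≤ P) : ∃ c : A, c ∉ P ∧ ∀ s ∈ P, s * c ∈ I := by
  obtain ⟨C, hC⟩ := Ideal.dvd_iff_le.2 hIP
  have hCP : ¬ C ≤ P := by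
    intro h
    have h1 : IsRadical I := by
      intro n L hL
      rw [Ideal.dvd_iff_le] at hL ⊢
      intro y hy
      exact hI ⟨n, hL (Ideal.pow_mem_pow hy n)⟩
    have hsq : Squarefree I := h1.squarefree hI0
    have h2 : P * P ∣ I := by
      rw [hC]
      exact mul_dvd_mul_left _ (Ideal.dvd_iff_le.2 h)
    have h3 := hsq P h2
    rw [Ideal.isUnit_iff] at h3
    exact hP.ne_top h3
  obtain ⟨c, hc, hcP⟩ := Set.not_subset.1 hCP
  refine ⟨c, hcP, fun s hs => ?_⟩
  rw [hC]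
  exact Ideal.mul_mem_mul hs hc

/-- `m x = a`, `m ≠ 0`: there are `d₁, d₂` with `m = a d₁ + m d₂` and `d_i a ∈ (m)`. -/
theorem denom {A : Type} [CommRing A] [IsDedekindDomain A] (a m : A) :
    ∃ d₁ d₂ : A, m = a * d₁ + m * d₂ ∧ (∃ u, d₁ * a = m * u) ∧ ∃ u, d₂ * a = m * u := by
  have hle : Ideal.span {m} ≤ Ideal.span {a, m} :=
    Ideal.span_mono (by simp)
  obtain ⟨D, hD⟩ := Ideal.dvd_iff_le.2 hle
  have hm : m ∈ Ideal.span {a, m} * D := by
    rw [← hD]
    exact Ideal.mem_span_singleton_self m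
  have ha : ∀ d ∈ D, ∃ u, d * a = m * u := by
    intro d hd
    have h1 : a * d ∈ Ideal.span {m} := by
      rw [hD]
      exact Ideal.mul_mem_mul (Ideal.subset_span (by simp)) hd
    obtain ⟨u, hu⟩ := Ideal.mem_span_singleton.1 h1
    exact ⟨u, by rw [mul_comm, hu]⟩
  have h2 : Ideal.span {a, m} * D = Ideal.span {a} * D ⊔ Ideal.span {m} * D := by
    rw [Ideal.span_insert, Ideal.sup_mul]
  rw [h2] at hm
  obtain ⟨u, hu, v, hv, huv⟩ := Submodule.mem_sup.1 hm
  obtain ⟨d₁, hd₁, rfl⟩ := Ideal.mem_span_singleton_mul.1 hu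
  obtain ⟨d₂, hd₂, rfl⟩ := Ideal.mem_span_singleton_mul.1 hv
  exact ⟨d₁, d₂, huv.symm, ha d₁ hd₁, ha d₂ hd₂⟩

end ALG2M

open ALGM ALG2M in
theorem specALG2 : SpecALG2 := by
  intro p hp ι _ x R halg hx hs hF hram
  classical
  have hp0 : (p : ℝ) ≠ 0 := by exact_mod_cast hp.1.ne_zero
  set K := IntermediateField.adjoin ℚ (Set.range x) with hK
  have hfin : FiniteDimensional ℚ K := by
    apply IntermediateField.finiteDimensional_adjoin
    rintro y ⟨i, rfl⟩
    exact (halg i).isIntegral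
  have hnf : NumberField K := { to_charZero := inferInstance, to_finiteDimensional := hfin }
  -- elements of K
  have hKpow : ∀ θ ∈ Algebra.adjoin ℚ (Set.range x), ∃ j : ℕ, (p : ℝ) ^ j * θ ∈ R := by
    intro θ hθ
    have hpR : (p : ℝ) ∈ R := natCast_mem R _
    induction hθ using Algebra.adjoin_induction with
    | mem y hy =>
      obtain ⟨i, rfl⟩ := hy
      exact ⟨0, by simpa using hx i⟩
    | algebraMap r =>
      obtain ⟨j, hj⟩ := pow_mem_rat (p := p) hs r
      exact ⟨j, by simpa using hj⟩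
    | add y z _ _ hy hz =>
      obtain ⟨i, hi⟩ := hy
      obtain ⟨j, hj⟩ := hz
      refine ⟨i + j, ?_⟩
      have h1 : (p : ℝ) ^ (i + j) * (y + z) =
          (p : ℝ) ^ j * ((p : ℝ) ^ i * y) + (p : ℝ) ^ i * ((p : ℝ) ^ j * z) := by ring
      rw [h1]
      exact R.add_mem (R.mul_mem (R.pow_mem hpR _) hi) (R.mul_mem (R.pow_mem hpR _) hj)
    | mul y z _ _ hy hz =>
      obtain ⟨i, hi⟩ := hy
      obtain ⟨j, hj⟩ := hz
      refine ⟨i + j, ?_⟩
      have h1 : (p : ℝ) ^ (i + j) * (y * z) = ((p : ℝ) ^ i * y) * ((p : ℝ) ^ j * z) := by ring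
      rw [h1]
      exact R.mul_mem hi hj
  have hKadj : K.toSubalgebra = Algebra.adjoin ℚ (Set.range x) := by
    rw [hK]
    refine IntermediateField.adjoin_toSubalgebra_of_isAlgebraic ?_
    rintro y ⟨i, rfl⟩
    exact halg i
  -- integers of K
  have hint : ∀ θ : 𝓞 K, (((θ : K) : ℝ)) ∈ R := by
    intro θ
    have h0 : ((θ : K) : ℝ) ∈ Algebra.adjoin ℚ (Set.range x) := by
      rw [← hKadj]
      exact (θ : K).2
    obtain ⟨j, hj⟩ := hKpow _ h0
    have h1 : IsIntegral ℤ ((θ : K) : ℝ) :=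
      (RingOfIntegers.isIntegral_coe θ).map (IsScalarTower.toAlgHom ℤ K ℝ)
    exact integral_mem hF h1 j hj
  have hpK : ((((p : ℕ) : 𝓞 K) : K) : ℝ) = (p : ℝ) := by simp
  have hpne : ((p : ℕ) : 𝓞 K) ≠ 0 := by exact_mod_cast hp.1.ne_zero
  -- elements of the radical
  set I := (Ideal.span {((p : ℕ) : 𝓞 K)}).radical with hI
  have hIrad : I.IsRadical := Ideal.radical_isRadical _
  have hpI : ((p : ℕ) : 𝓞 K) ∈ I := Ideal.le_radical (Ideal.mem_span_singleton_self _)
  have hI0 : I ≠ ⊥ := by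
    intro h
    rw [h] at hpI
    exact hpne (by simpa using hpI)
  have hrad : ∀ θ ∈ I, ((θ : K) : ℝ) / p ∈ R := by
    intro θ hθ
    obtain ⟨n, hn⟩ := hθ
    obtain ⟨ω, hω⟩ := Ideal.mem_span_singleton.1 hn
    refine descent' hF (hint θ) n ((ω : K) : ℝ) (hint ω) ?_
    have h1 := congrArg (fun z : 𝓞 K => ((z : K) : ℝ)) hω
    simpa using h1
  -- the denominator ideals
  let 𝔟 : ι → Ideal (𝓞 K) := fun i =>
    { carrier := {s | IsIntegral ℤ (((s : K) : ℝ) * x i)}
      add_mem' := by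
        intro s t hs ht
        have h1 : (((s + t : 𝓞 K) : K) : ℝ) * x i =
            ((s : K) : ℝ) * x i + ((t : K) : ℝ) * x i := by
          push_cast
          ring
        rw [Set.mem_ofPred_eq, h1]
        exact hs.add ht
      zero_mem' := by
        rw [Set.mem_ofPred_eq]
        simpa using isIntegral_zero
      smul_mem' := by
        intro c s hs
        have h1 : (((c • s : 𝓞 K) : K) : ℝ) * x i =
            ((c : K) : ℝ) * (((s : K) : ℝ) * x i) := by
          rw [smul_eq_mul]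
          push_cast
          ring
        rw [Set.mem_ofPred_eq, h1]
        exact ((RingOfIntegers.isIntegral_coe c).map (IsScalarTower.toAlgHom ℤ K ℝ)).mul hs }
  have hmem𝔟 : ∀ (i : ι) (s : 𝓞 K), s ∈ 𝔟 i ↔ IsIntegral ℤ (((s : K) : ℝ) * x i) :=
    fun _ _ => Iff.rfl
  have hxK : ∀ i, x i ∈ K := fun i => IntermediateField.subset_adjoin ℚ _ ⟨i, rfl⟩
  have hone : ∀ i, ∃ d₁ ∈ 𝔟 i, ∃ d₂ ∈ 𝔟 i,
      (1 : ℝ) = x i * ((d₁ : K) : ℝ) + ((d₂ : K) : ℝ) := by
    intro i
    have halgZ : IsAlgebraic ℤ (x i) := (IsFractionRing.isAlgebraic_iff ℤ ℚ ℝ).2 (halg i)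
    obtain ⟨m, hm0, hm⟩ := halgZ.exists_integral_multiple
    have hmR : (m : ℝ) ≠ 0 := by exact_mod_cast hm0
    have hmem : m • x i ∈ K := K.zsmul_mem (hxK i) m
    have hintK : IsIntegral ℤ (⟨m • x i, hmem⟩ : K) := by
      have h1 : IsIntegral ℤ (algebraMap K ℝ ⟨m • x i, hmem⟩) := hm
      exact (isIntegral_algebraMap_iff (algebraMap K ℝ).injective).1 h1
    set a : 𝓞 K := ⟨⟨m • x i, hmem⟩, hintK⟩ with ha
    have haR : ((a : K) : ℝ) = m * x i := by
      rw [ha]
      exact zsmul_eq_mul _ _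
    obtain ⟨d₁, d₂, e, ⟨u₁, h₁⟩, u₂, h₂⟩ := denom a (m : 𝓞 K)
    have e' := congrArg (fun z : 𝓞 K => ((z : K) : ℝ)) e
    have h₁' := congrArg (fun z : 𝓞 K => ((z : K) : ℝ)) h₁
    have h₂' := congrArg (fun z : 𝓞 K => ((z : K) : ℝ)) h₂
    have hmK : ((((m : ℤ) : 𝓞 K) : K) : ℝ) = (m : ℝ) := by simp
    push_cast at e' h₁' h₂'
    rw [hmK, haR] at e' h₁' h₂'
    have hu : ∀ u : 𝓞 K, IsIntegral ℤ ((u : K) : ℝ) := fun u =>
      (RingOfIntegers.isIntegral_coe u).map (IsScalarTower.toAlgHom ℤ K ℝ)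
    refine ⟨d₁, ?_, d₂, ?_, ?_⟩
    · rw [hmem𝔟]
      have h3 : ((d₁ : K) : ℝ) * x i = ((u₁ : K) : ℝ) := by
        apply mul_left_cancel₀ hmR
        linear_combination h₁'
      rw [h3]
      exact hu u₁
    · rw [hmem𝔟]
      have h3 : ((d₂ : K) : ℝ) * x i = ((u₂ : K) : ℝ) := by
        apply mul_left_cancel₀ hmR
        linear_combination h₂'
      rw [h3]
      exact hu u₂
    · apply mul_left_cancel₀ hmR
      linear_combination e'
  -- removing the denominators
  have hrem : ∀ (s : Finset ι) (θ : 𝓞 K), (∀ β ∈ ∏ i ∈ s, 𝔟 i, θ * β ∈ I) →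
      ((θ : K) : ℝ) / p ∈ R := by
    intro s
    induction s using Finset.induction_on with
    | empty =>
      intro θ hθ
      have h1 := hθ 1 (by rw [Finset.prod_empty, Ideal.one_eq_top]; exact Submodule.mem_top)
      rw [mul_one] at h1
      exact hrad θ h1
    | insert i s his ih =>
      intro θ hθ
      rw [Finset.prod_insert his] at hθ
      obtain ⟨d₁, hd₁, d₂, hd₂, e⟩ := hone i
      have h1 := ih (θ * d₁) fun β hβ => by
        rw [mul_assoc]
        exact hθ _ (Ideal.mul_mem_mul hd₁ hβ)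
      have h2 := ih (θ * d₂) fun β hβ => by
        rw [mul_assoc]
        exact hθ _ (Ideal.mul_mem_mul hd₂ hβ)
      have h3 : ((θ : K) : ℝ) / p = x i * ((((θ * d₁ : 𝓞 K) : K) : ℝ) / p) +
          (((θ * d₂ : 𝓞 K) : K) : ℝ) / p := by
        push_cast
        field_simp
        linear_combination ((θ : K) : ℝ) * e
      rw [h3]
      exact R.add_mem (R.mul_mem (hx i) h1) h2
  have := Fintype.ofFinite ι
  let J : Ideal (𝓞 K) :=
    { carrier := {θ | ∀ β ∈ ∏ i, 𝔟 i, θ * β ∈ I}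
      add_mem' := by
        intro s t hs ht β hβ
        rw [add_mul]
        exact I.add_mem (hs β hβ) (ht β hβ)
      zero_mem' := by
        intro β _
        rw [zero_mul]
        exact I.zero_mem
      smul_mem' := by
        intro c s hs β hβ
        rw [smul_eq_mul, mul_assoc]
        exact I.mul_mem_left _ (hs β hβ) }
  have hmemJ : ∀ θ : 𝓞 K, θ ∈ J ↔ ∀ β ∈ ∏ i, 𝔟 i, θ * β ∈ I := fun _ => Iff.rfl
  have hIJ : I ≤ J := fun θ hθ β _ => I.mul_mem_right _ hθ
  have hJrad : J.IsRadical := by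
    rintro θ ⟨n, hn⟩ β hβ
    have h1 := (hmemJ _).1 hn β hβ
    refine hIrad ⟨n + 1, ?_⟩
    have h2 : (θ * β) ^ (n + 1) = (θ ^ n * β) * (θ * β ^ n) := by ring
    rw [h2]
    exact I.mul_mem_right _ h1
  have hmem : ((p : ℕ) : 𝓞 K) ∈ J ^ 2 := by
    refine rad_sq _ hpne J hJrad (hIJ hpI) ?_
    intro P hP hJP
    rcases hram P hP (hJP (hIJ hpI)) with h1 | ⟨i, hi⟩
    · exact h1
    · exfalso
      obtain ⟨c, hcP, hc⟩ := cofactor I P hI0 hIrad hP (hIJ.trans hJP)
      refine hcP (hJP ((hmemJ c).2 fun β hβ => ?_))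
      rw [mul_comm]
      refine hc β ?_
      have h2 : ∏ j, 𝔟 j ≤ 𝔟 i := by
        rw [← Finset.mul_prod_erase Finset.univ 𝔟 (Finset.mem_univ i)]
        exact Ideal.mul_le_left
      exact hi β ((hmem𝔟 i β).1 (h2 hβ))
  have hall : ∀ z ∈ J ^ 2, ((z : K) : ℝ) / (p * p) ∈ R := by
    intro z hz
    rw [pow_two] at hz
    refine Submodule.mul_induction_on hz ?_ ?_
    · intro α hα β hβ
      have h1 : (((α * β : 𝓞 K) : K) : ℝ) / (p * p) =
          (((α : K) : ℝ) / p) * (((β : K) : ℝ) / p) := by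
        push_cast
        field_simp
      rw [h1]
      exact R.mul_mem (hrem _ α hα) (hrem _ β hβ)
    · intro α β hα hβ
      have h1 : (((α + β : 𝓞 K) : K) : ℝ) / (p * p) =
          ((α : K) : ℝ) / (p * p) + ((β : K) : ℝ) / (p * p) := by
        push_cast
        ring
      rw [h1]
      exact R.add_mem hα hβ
  have h1 := hall _ hmem
  rw [hpK] at h1
  have h2 : (p : ℝ) / (p * p) = 1 / p := by field_simp
  rwa [h2] at h1

end Pool.Agent.Lib.MP5b6025.RM
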