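import Pool.Agent.Lib.MP_5b6025_nt.RM.Spec

/-!
# Ramified primes: assembly
-/

set_option autoImplicit false

open Polynomial NumberField

namespace Pool.Agent.Lib.MP5b6025.RM

/-! ## Basic facts -/

theorem cut_mono {S : Set ℕ} {p W q C C' Z : ℕ} (hp : 1 ≤ p) (hq : 1 ≤ q) (h : C ≤ C')
    (hc : Cut S p W q C' Z) : Cut S p W q C Z := by
  refine ⟨fun i hi => ?_, ?_⟩
  · exact DD.Basic.gapS_K (DD.Basic.gapS_mono (hc.gap i (hi.trans h)) h) (Nat.pow_le_pow_right hq h)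
  · refine le_trans ?_ hc.le
    exact Nat.add_le_add (Nat.mul_le_mul_right _ (Nat.pow_le_pow_right hp h))
      (Nat.pow_le_pow_right hq h)

theorem cut_mul {S : Set ℕ} {p W q C Z : ℕ} (hq : 1 ≤ q)
    (hc : Cut S p W q (C + 1) Z) : Cut S p W q C (p * Z) := by
  refine ⟨fun i hi => ?_, ?_⟩
  · have h1 := hc.gap (i + 1) (by omega)
    have h2 : p ^ i * (p * Z) = p ^ (i + 1) * Z := by ring
    rw [h2]
    exact DD.Basic.gapS_K (DD.Basic.gapS_mono h1 (by omega)) (Nat.pow_le_pow_right hq (by omega))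
  · refine le_trans ?_ hc.le
    have h2 : p ^ C * (p * Z) = p ^ (C + 1) * Z := by ring
    rw [h2]
    exact Nat.add_le_add_left (Nat.pow_le_pow_right hq (by omega)) _

theorem cut_pos {S : Set ℕ} {p W q C Z : ℕ} (hq : 1 ≤ q) (hc : Cut S p W q C Z) : 1 ≤ Z := by
  by_contra h
  have hZ : Z = 0 := by omega
  subst hZ
  have h1 := hc.gap 0 (Nat.zero_le _) 0 (DD.Basic.isSumS_zero _ _)
  have h2 : 1 ≤ q ^ C := Nat.one_le_pow _ _ hq
  rcases h1 with h1 | h1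
  · simp at h1
  · simp only [pow_zero, mul_zero, Nat.cast_zero, zero_add] at h1
    omega

theorem adm_pos {S : Set ℕ} {W q : ℕ} (h : Adm S W q) : 1 ≤ q := by
  have := h.1
  omega

theorem VV_eq (b : ℕ) (t : ℕ → ℤ) (f : ℚ[X]) (Z : ℕ) :
    VV b t f Z = DD.TT (tq b t) f (Z : ℤ) := by
  rw [VV, LL, DD.TT, Int.toNat_natCast]

theorem VV_add (b : ℕ) (t : ℕ → ℤ) (f g : ℚ[X]) (Z : ℕ) :
    VV b t (f + g) Z = VV b t f Z + VV b t g Z := by
  rw [VV_eq, VV_eq, VV_eq, DD.Basic.TT_add]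

theorem VV_sub (b : ℕ) (t : ℕ → ℤ) (f g : ℚ[X]) (Z : ℕ) :
    VV b t (f - g) Z = VV b t f Z - VV b t g Z := by
  rw [VV_eq, VV_eq, VV_eq, DD.Basic.TT_sub]

theorem VV_C_mul (b : ℕ) (t : ℕ → ℤ) (c : ℚ) (f : ℚ[X]) (Z : ℕ) :
    VV b t (C c * f) Z = c * VV b t f Z := by
  rw [VV_eq, VV_eq, DD.Basic.TT_C_mul]

theorem VV_C (b : ℕ) (t : ℕ → ℤ) (c : ℚ) {Z : ℕ} (hZ : 1 ≤ Z) : VV b t (C c) Z = c := by
  rw [VV_eq, DD.Basic.TT_C]
  exact_mod_cast hZ

theorem supp_tq {b : ℕ} (hb : 2 ≤ b) (t : ℕ → ℤ) : DD.supp (tq b t) = Spt t := by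
  ext n
  have hb0 : (b : ℚ) ^ n ≠ 0 := by positivity
  simp only [DD.supp, Spt, Set.mem_ofPred_eq, tq, ne_eq, div_eq_zero_iff, hb0, or_false,
    Int.cast_eq_zero]

/-! ## The ring `Op p` -/

section Op

variable {p : ℕ} [hp : Fact p.Prime]

theorem mem_Op {r : ℚ} : r ∈ Op p ↔ ¬ p ∣ r.den := Iff.rfl

theorem div_mem_Op (a : ℤ) (c : ℕ) (hc : ¬ p ∣ c) : (a : ℚ) / (c : ℚ) ∈ Op p := by
  rw [mem_Op]
  intro h
  have h1 : (((a : ℚ) / ((c : ℤ) : ℚ)).den : ℤ) ∣ (c : ℤ) := by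
    rw [← Rat.divInt_eq_div]
    exact Rat.den_dvd a c
  have h2 : ((a : ℚ) / (c : ℚ)).den ∣ c := by
    have : ((c : ℤ) : ℚ) = (c : ℚ) := by push_cast; rfl
    rw [this] at h1
    exact_mod_cast h1
  exact hc (h.trans h2)

theorem int_mem_Op (a : ℤ) : (a : ℚ) ∈ Op p := by
  have h := div_mem_Op (p := p) a 1 (by rw [Nat.dvd_one]; exact hp.1.one_lt.ne')
  rwa [Nat.cast_one, div_one] at h

theorem one_div_not_mem : ¬ (1 / (p : ℚ)) ∈ Op p := by
  rw [mem_Op, not_not]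
  have h : (1 / (p : ℚ)).den = p := by
    rw [one_div]
    have := Rat.inv_natCast_den_of_pos hp.1.pos
    simpa using this
  rw [h]

theorem div_mem_of_pow {r s : ℚ} (hr : r ∈ Op p) (hs : s ∈ Op p) (h : r ^ p = p * s) :
    1 / (p : ℚ) * r ∈ Op p := by
  have hrd : (r.den : ℚ) ≠ 0 := by exact_mod_cast r.den_nz
  have hsd : (s.den : ℚ) ≠ 0 := by exact_mod_cast s.den_nz
  have h1 : (r.num : ℚ) ^ p * s.den = p * s.num * (r.den : ℚ) ^ p := by
    have e1 : (r.num : ℚ) = r * r.den := (Rat.mul_den_eq_num r).symm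
    have e2 : (s.num : ℚ) = s * s.den := (Rat.mul_den_eq_num s).symm
    rw [e1, e2, mul_pow, h]
    ring
  have h2 : r.num ^ p * (s.den : ℤ) = p * s.num * (r.den : ℤ) ^ p := by exact_mod_cast h1
  have h3 : (p : ℤ) ∣ r.num ^ p * (s.den : ℤ) := by
    rw [h2, mul_assoc]
    exact dvd_mul_right _ _
  have hpI : Prime (p : ℤ) := Nat.prime_iff_prime_int.1 hp.1
  have h4 : (p : ℤ) ∣ r.num := by
    rcases hpI.dvd_or_dvd h3 with h5 | h5
    · exact hpI.dvd_of_dvd_pow h5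
    · exact absurd (Int.natCast_dvd_natCast.1 h5) hs
  obtain ⟨m, hm⟩ := h4
  have h5 : 1 / (p : ℚ) * r = (m : ℚ) / (r.den : ℚ) := by
    have hp0 : (p : ℚ) ≠ 0 := by exact_mod_cast hp.1.ne_zero
    have e1 : r * r.den = p * m := by
      rw [Rat.mul_den_eq_num r, hm]
      push_cast
      ring
    field_simp
    linarith
  rw [h5]
  exact div_mem_Op m r.den hr

end Op

/-! ## Closure properties -/

variable {p : ℕ} [hp : Fact p.Prime] {b : ℕ} {t : ℕ → ℤ}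

theorem itg_add {f g : ℚ[X]} (hf : Itg p b t f) (hg : Itg p b t g) : Itg p b t (f + g) := by
  obtain ⟨C1, h1⟩ := hf
  obtain ⟨C2, h2⟩ := hg
  refine ⟨max C1 C2, fun W q Z ha hq hc => ?_⟩
  rw [VV_add]
  have hq1 := adm_pos ha
  exact (Op p).add_mem
    (h1 W q Z ha ((le_max_left _ _).trans hq) (cut_mono hp.1.one_le hq1 (le_max_left _ _) hc))
    (h2 W q Z ha ((le_max_right _ _).trans hq) (cut_mono hp.1.one_le hq1 (le_max_right _ _) hc))

theorem itg_C {r : ℚ} (hr : r ∈ Op p) : Itg p b t (C r) := by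
  refine ⟨0, fun W q Z ha _ hc => ?_⟩
  rw [VV_C b t r (cut_pos (adm_pos ha) hc)]
  exact hr

theorem itg_X (hpb : ¬ p ∣ b) : Itg p b t X := by
  refine ⟨0, fun W q Z _ _ _ => ?_⟩
  rw [VV_eq, DD.Basic.TT_X]
  refine (Op p).sum_mem fun v _ => ?_
  have h : tq b t v = (t v : ℚ) / ((b ^ v : ℕ) : ℚ) := by
    rw [tq]
    push_cast
    rfl
  rw [h]
  exact div_mem_Op _ _ fun h1 => hpb (hp.1.dvd_of_dvd_pow h1)

theorem itg_neg {f : ℚ[X]} (hf : Itg p b t f) : Itg p b t (-f) := by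
  obtain ⟨C1, h1⟩ := hf
  refine ⟨C1, fun W q Z ha hq hc => ?_⟩
  have e : -f = C (-1 : ℚ) * f := by simp
  rw [e, VV_C_mul]
  have := (Op p).neg_mem (h1 W q Z ha hq hc)
  simpa using this

theorem coeff_sum {f : ℚ[X]} (hb : 2 ≤ b) {D : ℕ} (hD : f.natDegree ≤ D) {v : ℕ}
    (hv : PowerSeries.coeff v (aeval (PowerSeries.mk (tq b t)) f) ≠ 0) :
    DD.IsSumS (Spt t) D v := by
  rw [← supp_tq hb t]
  exact DD.Basic.isSumS_of_coeff (tq b t) f hD hv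

/-- coefficients of products of polynomials with coefficients in `Op p` -/
theorem coeff_mul_mem {P Q : ℚ[X]} (hP : ∀ k, P.coeff k ∈ Op p) (hQ : ∀ k, Q.coeff k ∈ Op p)
    (k : ℕ) : (P * Q).coeff k ∈ Op p := by
  rw [coeff_mul]
  exact (Op p).sum_mem fun x _ => (Op p).mul_mem (hP _) (hQ _)

theorem itg_mul (hCOM : SpecCOM) (hCLP : SpecCLP) (hBLK : SpecBLK) (hb : 2 ≤ b) {f g : ℚ[X]}
    (hf : Itg p b t f) (hg : Itg p b t g) : Itg p b t (f * g) := by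
  obtain ⟨C1, h1⟩ := hf
  obtain ⟨C2, h2⟩ := hg
  set C0 := max C1 C2 with hC0
  set D := max f.natDegree g.natDegree with hD
  obtain ⟨C', hCC, hcom⟩ := hCOM p C0 2 D hp.1.one_le
  refine ⟨C', fun W q Z ha hq hc => ?_⟩
  have hq1 := adm_pos ha
  obtain ⟨φ, φ1, φ2, φ3, φ4⟩ := hcom (Spt t) W q Z ha hq hc
  set F : PowerSeries ℚ := aeval (PowerSeries.mk (tq b t)) f with hF
  set G : PowerSeries ℚ := aeval (PowerSeries.mk (tq b t)) g with hG
  have hZ : Cut (Spt t) p W q C0 Z := cut_mono hp.1.one_le hq1 hCC hc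
  have hclp := hCLP 2 Z ![F, G] φ φ1 (by
    intro w hw hs
    refine φ4 w (fun j => ?_) hs
    have h3 := hw j
    fin_cases j
    · exact coeff_sum hb (le_max_left _ _) h3
    · exact coeff_sum hb (le_max_right _ _) h3)
  have hbF := hBLK p F φ Z (fun k => Cut (Spt t) p W q C0 k) φ1 φ2 φ3 hZ (by
    intro k _ hk
    exact h1 W q k ha ((le_max_left _ _).trans (hCC.trans hq))
      (cut_mono hp.1.one_le hq1 (le_max_left _ _) hk))
  have hbG := hBLK p G φ Z (fun k => Cut (Spt t) p W q C0 k) φ1 φ2 φ3 hZ (by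
    intro k _ hk
    exact h2 W q k ha ((le_max_right _ _).trans (hCC.trans hq))
      (cut_mono hp.1.one_le hq1 (le_max_right _ _) hk))
  have e : VV b t (f * g) Z = LL (∏ j, (![F, G] : Fin 2 → PowerSeries ℚ) j) Z := by
    rw [VV, map_mul, Fin.prod_univ_two]
    rfl
  rw [e, hclp, Fin.prod_univ_two, PL]
  refine (Op p).sum_mem fun k _ => ?_
  exact coeff_mul_mem hbF.1 hbG.1 k

theorem itg_frob (hCOM : SpecCOM) (hCLP : SpecCLP) (hBLK : SpecBLK) (hFRB : SpecFRB)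
    (hEXC : SpecEXC) (hb : 2 ≤ b) {B : ℕ} (hB : ∀ n, |t n| ≤ B) {f g : ℚ[X]}
    (hf : Itg p b t f) (hg : Itg p b t g)
    (hfg : aeval (DC.bet b t) f ^ p = p * aeval (DC.bet b t) g) :
    Itg p b t (C (1 / (p : ℚ)) * f) := by
  obtain ⟨C1, h1⟩ := hf
  obtain ⟨C2, h2⟩ := hg
  obtain ⟨C3, h3⟩ := hEXC b t B p (f ^ p - C (p : ℚ) * g) hb hB (by
    rw [map_sub, map_pow, map_mul, hfg, aeval_C]
    simp)
  obtain ⟨C', hCC, hcom⟩ := hCOM p C1 p f.natDegree hp.1.one_le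
  set M := max C' (max C2 C3) with hM
  refine ⟨M + 1, fun W q Z ha hq hc => ?_⟩
  have hq1 := adm_pos ha
  have hpZ : Cut (Spt t) p W q M (p * Z) := cut_mul hq1 hc
  have hC'M : C' ≤ M := le_max_left _ _
  have hC2M : C2 ≤ M := (le_max_left _ _).trans (le_max_right _ _)
  have hC3M : C3 ≤ M := (le_max_right _ _).trans (le_max_right _ _)
  obtain ⟨φ, φ1, φ2, φ3, φ4⟩ := hcom (Spt t) W q (p * Z) ha (by omega)
    (cut_mono hp.1.one_le hq1 hC'M hpZ)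
  set F : PowerSeries ℚ := aeval (PowerSeries.mk (tq b t)) f with hF
  have hclp := hCLP p (p * Z) (fun _ => F) φ φ1 (by
    intro w hw hs
    exact φ4 w (fun j => coeff_sum hb le_rfl (hw j)) hs)
  have hbF := hBLK p F φ (p * Z) (fun k => Cut (Spt t) p W q C1 k) φ1 φ2 φ3
    (cut_mono hp.1.one_le hq1 (hCC.trans hC'M) hpZ) (by
      intro k _ hk
      exact h1 W q k ha (by omega) hk)
  obtain ⟨r, hr, hfrb⟩ := hFRB p (HH F φ (p * Z)) Z hbF.1
  have hVf : PL (HH F φ (p * Z)) Z = VV b t f Z :=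
    hbF.2 Z (Nat.le_mul_of_pos_left _ hp.1.pos)
      (cut_mono hp.1.one_le hq1 (show C1 ≤ M + 1 by omega) hc)
  have e1 : VV b t (f ^ p) (p * Z) = VV b t f Z ^ p + p * r := by
    rw [← hVf, ← hfrb]
    rw [Finset.prod_const, Finset.prod_const, Finset.card_univ, Fintype.card_fin] at hclp
    rw [← hclp, VV, map_pow]
  have e2 : VV b t (f ^ p) (p * Z) = p * VV b t g (p * Z) := by
    have := h3 W q (p * Z) ha (by omega) (cut_mono hp.1.one_le hq1 hC3M hpZ)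
    rw [VV_sub, VV_C_mul] at this
    linarith
  have hg' : VV b t g (p * Z) ∈ Op p :=
    h2 W q (p * Z) ha (by omega) (cut_mono hp.1.one_le hq1 hC2M hpZ)
  have e3 : VV b t f Z ^ p = p * (VV b t g (p * Z) - r) := by
    rw [mul_sub, ← e2, e1]
    ring
  rw [VV_C_mul]
  refine div_mem_of_pow ?_ ((Op p).sub_mem hg' hr) e3
  exact h1 W q Z ha (by omega) (cut_mono hp.1.one_le hq1 (by omega) hc)

/-- the ring of the values of the integral polynomials -/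
def RR (hCOM : SpecCOM) (hCLP : SpecCLP) (hBLK : SpecBLK) (p b : ℕ) [hp : Fact p.Prime]
    (t : ℕ → ℤ) (hb : 2 ≤ b) : Subring ℝ where
  carrier := {y | ∃ f : ℚ[X], aeval (DC.bet b t) f = y ∧ Itg p b t f}
  mul_mem' := by
    rintro y z ⟨f, hf, hf'⟩ ⟨g, hg, hg'⟩
    exact ⟨f * g, by rw [map_mul, hf, hg], itg_mul hCOM hCLP hBLK hb hf' hg'⟩
  one_mem' := by
    refine ⟨C 1, by simp, itg_C (Op p).one_mem⟩
  add_mem' := by
    rintro y z ⟨f, hf, hf'⟩ ⟨g, hg, hg'⟩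
    exact ⟨f + g, by rw [map_add, hf, hg], itg_add hf' hg'⟩
  zero_mem' := by
    refine ⟨C 0, by simp, itg_C (Op p).zero_mem⟩
  neg_mem' := by
    rintro y ⟨f, hf, hf'⟩
    exact ⟨-f, by rw [map_neg, hf], itg_neg hf'⟩

/-- The theorem, from the modules. -/
theorem thm (hCOM : SpecCOM) (hCLP : SpecCLP) (hBLK : SpecBLK) (hFRB : SpecFRB)
    (hEXC : SpecEXC) (hALG : SpecALG) (hCNT : SpecCNT) (b : ℕ) (t : ℕ → ℤ) (B p : ℕ)
    (hb : 2 ≤ b) (hB : ∀ n, |t n| ≤ B) (hp : p.Prime) (hpb : ¬ p ∣ b) (x : ℝ)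
    (hx : x = DC.bet b t) (halg : IsAlgebraic ℚ x)
    (hram : ∀ P : Ideal (𝓞 (IntermediateField.adjoin ℚ {x})), P.IsPrime →
      ((p : ℕ) : 𝓞 (IntermediateField.adjoin ℚ {x})) ∈ P →
      ((p : ℕ) : 𝓞 (IntermediateField.adjoin ℚ {x})) ∈ P ^ 2) :
    ∃ δ : ℝ, 0 < δ ∧ ∃ N₀ : ℕ, ∀ N : ℕ, N₀ ≤ N →
      (N : ℝ) ^ δ ≤ ((Finset.range N).filter fun n => t n ≠ 0).card := by
  have : Fact p.Prime := ⟨hp⟩
  have hp0 : (p : ℝ) ≠ 0 := by exact_mod_cast hp.ne_zero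
  have h1p : (1 / (p : ℝ)) ∈ RR hCOM hCLP hBLK p b t hb := by
    refine hALG p x _ halg ⟨X, by rw [aeval_X, hx], itg_X hpb⟩ ?_ ?_ hram
    · intro s hs
      refine ⟨C (1 / (s : ℚ)), by simp, itg_C ?_⟩
      have := div_mem_Op (p := p) 1 s hs
      simpa using this
    · rintro y ⟨f, hf, hf'⟩ z ⟨g, hg, hg'⟩ hyz
      refine ⟨C (1 / (p : ℚ)) * f, ?_, ?_⟩
      · rw [map_mul, hf, aeval_C]
        simp [div_eq_inv_mul]
      · refine itg_frob hCOM hCLP hBLK hFRB hEXC hb hB hf' hg' ?_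
        rw [hf, hg, hyz]
  obtain ⟨f, hf, C1, h1⟩ := h1p
  obtain ⟨C2, h2⟩ := hEXC b t B p (f - C (1 / (p : ℚ))) hb hB (by
    rw [map_sub, hf, aeval_C]
    simp)
  obtain ⟨δ, hδ, N₀, hN⟩ := hCNT (Spt t) p (max C1 C2) hp.one_le (by
    intro W q Z ha hq hc
    have hq1 := adm_pos ha
    have e1 := h1 W q Z ha ((le_max_left _ _).trans hq)
      (cut_mono hp.one_le hq1 (le_max_left _ _) hc)
    have e2 := h2 W q Z ha ((le_max_right _ _).trans hq)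
      (cut_mono hp.one_le hq1 (le_max_right _ _) hc)
    rw [VV_sub, VV_C b t _ (cut_pos hq1 hc)] at e2
    have e3 : VV b t f Z = 1 / (p : ℚ) := by linarith
    rw [e3] at e1
    exact one_div_not_mem e1)
  refine ⟨δ, hδ, max N₀ 1, fun N hNN => ?_⟩
  have h3 := hN N ((le_max_left _ _).trans hNN)
  have h4 : 1 ≤ N := (le_max_right _ _).trans hNN
  refine h3.trans (le_of_eq ?_)
  classical
  rw [DD.cnt, Nat.sub_add_cancel h4, Nat.cast_inj]
  congr 1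
  ext n
  rw [Finset.mem_filter, Finset.mem_filter]
  rfl

end Pool.Agent.Lib.MP5b6025.RM
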