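import Pool.Agent.Lib.MP_5b6025_nt.RM.CLP

/-!
# Module BLK: block masses
-/

set_option autoImplicit false

open Polynomial

namespace Pool.Agent.Lib.MP5b6025.RM

theorem specBLK : SpecBLK := by
  intro p _ F φ Z P hφ hcut hval hPZ hint
  -- at the cuts the masses are the truncated sums of `F`
  have hcutval : ∀ k, k ≤ Z → P k → PL (HH F φ Z) k = LL F k := by
    intro k hkZ hk
    rw [CLPM.PL_HH]
    have h1 : ∀ v, (φ v < k) ↔ (v < k) := by
      intro v
      constructor
      · intro h
        by_contra hc
        exact absurd (hcut v k hk (not_lt.1 hc)) (not_le.2 h)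
      · intro h
        exact lt_of_le_of_lt (hφ v) h
    simp only [h1]
    rw [← Finset.sum_filter]
    unfold LL
    refine Finset.sum_congr ?_ fun _ _ => rfl
    ext v
    simp only [Finset.mem_filter, Finset.mem_range]
    constructor
    · exact fun h => h.2
    · exact fun h => ⟨lt_of_lt_of_le h hkZ, h⟩
  -- all masses are integral
  have hM : ∀ n k : ℕ, k + n = Z → PL (HH F φ Z) k ∈ Op p := by
    intro n
    induction n with
    | zero =>
      intro k hk
      have hkZ : k = Z := by omega
      subst hkZ
      rw [hcutval k le_rfl hPZ]
      exact hint k le_rfl hPZ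
    | succ n ih =>
      intro k hk
      by_cases hPk : P k
      · rw [hcutval k (by omega) hPk]
        exact hint k (by omega) hPk
      · rcases Nat.eq_zero_or_pos k with h0 | h0
        · subst h0
          have : PL (HH F φ Z) 0 = 0 := by
            unfold PL
            rw [Finset.range_zero, Finset.sum_empty]
          rw [this]
          exact (Op p).zero_mem
        · have h1 : PL (HH F φ Z) k = PL (HH F φ Z) (k + 1) := by
            rw [CLPM.PL_HH, CLPM.PL_HH]
            refine Finset.sum_congr rfl fun v _ => ?_
            have hne : φ v ≠ k := by
              intro hv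
              rcases hval v with h | h
              · omega
              · rw [hv] at h
                exact hPk h
            have hiff : (φ v < k) ↔ (φ v < k + 1) := by omega
            simp only [hiff]
          rw [h1]
          exact ih (k + 1) (by omega)
  refine ⟨?_, hcutval⟩
  intro k
  rcases lt_or_ge k Z with hk | hk
  · have h1 : (HH F φ Z).coeff k = PL (HH F φ Z) (k + 1) - PL (HH F φ Z) k := by
      unfold PL
      rw [Finset.sum_range_succ, add_sub_cancel_left]
    rw [h1]
    exact (Op p).sub_mem (hM (Z - (k + 1)) (k + 1) (by omega)) (hM (Z - k) k (by omega))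
  · have h1 : (HH F φ Z).coeff k = 0 := by
      unfold HH
      simp only [finsetSum_coeff, coeff_C_mul_X_pow]
      refine Finset.sum_eq_zero fun v hv => ?_
      have := Finset.mem_range.1 hv
      have := hφ v
      rw [if_neg (by omega)]
    rw [h1]
    exact (Op p).zero_mem

end Pool.Agent.Lib.MP5b6025.RM
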