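import Pool.Agent.Lib.MP_5b6025_nt.RM.Spec

/-!
# Module CLP: the collapse identity

Coefficients below `Z` of a product depend only on the coefficients below `Z` of the factors; both
products are expanded over the words `w : Fin m → range Z` and compared termwise.
-/

set_option autoImplicit false

open Polynomial

namespace Pool.Agent.Lib.MP5b6025.RM

namespace CLPM

open Finset

theorem PL_sum {ι : Type} (s : Finset ι) (f : ι → ℚ[X]) (Z : ℕ) :
    PL (∑ i ∈ s, f i) Z = ∑ i ∈ s, PL (f i) Z := by
  unfold PL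
  simp only [finsetSum_coeff]
  exact Finset.sum_comm

theorem PL_mon (a : ℚ) (k Z : ℕ) : PL (C a * X ^ k) Z = if k < Z then a else 0 := by
  unfold PL
  simp only [coeff_C_mul_X_pow]
  rw [Finset.sum_ite_eq']
  simp only [mem_range]

/-- The truncated sum of coefficients of a collapsed polynomial. -/
theorem PL_HH (F : PowerSeries ℚ) (φ : ℕ → ℕ) (Z k : ℕ) :
    PL (HH F φ Z) k = ∑ v ∈ range Z, if φ v < k then PowerSeries.coeff v F else 0 := by
  unfold HH
  rw [PL_sum]
  exact Finset.sum_congr rfl fun v _ => PL_mon _ _ _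

/-- Expansion of a product of `m` sums of monomials. -/
theorem prod_expand {m : ℕ} (Z : ℕ) (a : Fin m → ℕ → ℚ) (ψ : ℕ → ℕ) :
    PL (∏ j, ∑ v ∈ range Z, C (a j v) * X ^ (ψ v)) Z =
      ∑ w ∈ Fintype.piFinset (fun _ : Fin m => range Z),
        if ∑ j, ψ (w j) < Z then ∏ j, a j (w j) else 0 := by
  rw [Finset.prod_univ_sum, PL_sum]
  refine Finset.sum_congr rfl fun w _ => ?_
  rw [Finset.prod_mul_distrib, Finset.prod_pow_eq_pow_sum, ← map_prod (C : ℚ →+* ℚ[X])]
  exact PL_mon _ _ _

theorem coeff_trunc (F : PowerSeries ℚ) (Z v : ℕ) (hv : v < Z) :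
    (∑ u ∈ range Z, C (PowerSeries.coeff u F) * X ^ u : ℚ[X]).coeff v = PowerSeries.coeff v F := by
  simp only [finsetSum_coeff, coeff_C_mul_X_pow]
  rw [Finset.sum_ite_eq, if_pos (mem_range.2 hv)]

/-- Coefficients below `Z` of a product depend only on the truncations of the factors. -/
theorem coeff_prod_trunc {ι : Type} [DecidableEq ι] (s : Finset ι) (F : ι → PowerSeries ℚ) (Z : ℕ) :
    ∀ v, v < Z → PowerSeries.coeff v (∏ j ∈ s, F j) =
      (∏ j ∈ s, ∑ u ∈ range Z, C (PowerSeries.coeff u (F j)) * X ^ u : ℚ[X]).coeff v := by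
  induction s using Finset.induction_on with
  | empty =>
    intro v _
    simp only [Finset.prod_empty, PowerSeries.coeff_one, Polynomial.coeff_one]
  | insert i s hi ih =>
    intro v hv
    rw [Finset.prod_insert hi, Finset.prod_insert hi, PowerSeries.coeff_mul, Polynomial.coeff_mul]
    refine Finset.sum_congr rfl fun x hx => ?_
    have hx' : x.1 + x.2 = v := Finset.HasAntidiagonal.mem_antidiagonal.1 hx
    rw [coeff_trunc _ _ _ (show x.1 < Z by omega), ih x.2 (by omega)]

end CLPM

theorem specCLP : SpecCLP := by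
  intro m Z F φ hφ hw
  have h1 : LL (∏ j, F j) Z =
      PL (∏ j, ∑ u ∈ Finset.range Z, C (PowerSeries.coeff u (F j)) * X ^ (id u)) Z := by
    unfold LL PL
    refine Finset.sum_congr rfl fun v hv => ?_
    exact CLPM.coeff_prod_trunc Finset.univ F Z v (Finset.mem_range.1 hv)
  rw [h1, CLPM.prod_expand]
  unfold HH
  rw [CLPM.prod_expand]
  refine Finset.sum_congr rfl fun w _ => ?_
  by_cases h0 : ∀ j, PowerSeries.coeff (w j) (F j) ≠ 0
  · have hiff : (∑ j, id (w j) < Z) ↔ (∑ j, φ (w j) < Z) := by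
      constructor
      · intro h
        exact lt_of_le_of_lt (Finset.sum_le_sum fun j _ => hφ (w j)) h
      · intro h
        exact hw w h0 h
    simp only [hiff]
  · push Not at h0
    obtain ⟨j, hj⟩ := h0
    have hz : ∏ j, PowerSeries.coeff (w j) (F j) = 0 := Finset.prod_eq_zero (Finset.mem_univ j) hj
    rw [hz, ite_self, ite_self]

end Pool.Agent.Lib.MP5b6025.RM
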