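import Pool.Agent.Lib.MP_5b6025_nt.RM.Spec
import Pool.Agent.Lib.MP_5b6025_nt.DD.Gap

/-!
# Ramified primes: from the absence of cuts to the power bound (`SpecCNT`)
-/

set_option autoImplicit false

open Filter Topology

namespace Pool.Agent.Lib.MP5b6025.RM
namespace CNTM

/-- If there is room then there is a cut. -/
theorem room (S : Set ℕ) (p C W q : ℕ) (hp : 1 ≤ p) (hA : Adm S W q)
    (hW : p ^ C * (1 + ((C + 1) * (q ^ C * q ^ C) + 1)) + q ^ C ≤ W) :
    ∃ Z : ℕ, Cut S p W q C Z := by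
  classical
  set G : ℕ := (C + 1) * (q ^ C * q ^ C) + 1 with hG
  set M : Finset ℕ := (Finset.range (C + 1)).image (fun i => p ^ i) with hM
  have hle : ∀ i : ℕ, i ≤ C → p ^ i ≤ p ^ C := fun i hi => Nat.pow_le_pow_right hp hi
  have h3 := (DD.specGAP S W (DD.cnt S W) C le_rfl).2.2 (q ^ C) G 1 M ?_ ?_
  · obtain ⟨Y, h1, h2, h4⟩ := h3
    refine ⟨Y, ?_, ?_⟩
    · intro i hi
      exact h4 (p ^ i) (Finset.mem_image.2 ⟨i, Finset.mem_range.2 (by omega), rfl⟩)
    · calc p ^ C * Y + q ^ C ≤ p ^ C * (1 + G) + q ^ C := by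
            apply Nat.add_le_add_right
            exact Nat.mul_le_mul_left _ h2.le
        _ ≤ W := hW
  · intro μ hμ
    obtain ⟨i, hi, rfl⟩ := Finset.mem_image.1 hμ
    have hi' : i ≤ C := by have := Finset.mem_range.1 hi; omega
    refine ⟨Nat.one_le_pow _ _ hp, ?_⟩
    calc p ^ i * (1 + G) + q ^ C ≤ p ^ C * (1 + G) + q ^ C := by
          apply Nat.add_le_add_right
          exact Nat.mul_le_mul_right _ (hle i hi')
      _ ≤ W := hW
  · have h1 : M.card ≤ C + 1 := by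
      have := Finset.card_image_le (s := Finset.range (C + 1)) (f := fun i => p ^ i)
      rwa [Finset.card_range] at this
    have h2 : (DD.cnt S W + 1) ^ C ≤ q ^ C := Nat.pow_le_pow_left (by have := hA.1; omega) C
    calc M.card * ((DD.cnt S W + 1) ^ C * q ^ C) ≤ (C + 1) * (q ^ C * q ^ C) :=
          Nat.mul_le_mul h1 (Nat.mul_le_mul_right _ h2)
      _ < G := by omega

/-- Without cuts `W` is less than a power of `q`. -/
theorem bound (S : Set ℕ) (p C W q : ℕ) (hp : 1 ≤ p) (hA : Adm S W q)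
    (hno : ¬ ∃ Z : ℕ, Cut S p W q C Z) :
    W < (p ^ C * (C + 3) + 1) * q ^ (2 * C + 1) := by
  have h := mt (room S p C W q hp hA) hno
  have hq : 1 ≤ q := by have := hA.1; omega
  rw [not_le] at h
  refine h.trans_le ?_
  have h1 : q ^ C * q ^ C ≤ q ^ (2 * C + 1) := by
    rw [← pow_add]
    exact Nat.pow_le_pow_right hq (by omega)
  have h2 : q ^ C ≤ q ^ (2 * C + 1) := Nat.pow_le_pow_right hq (by omega)
  have h3 : 1 ≤ q ^ (2 * C + 1) := Nat.one_le_pow _ _ hq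
  calc p ^ C * (1 + ((C + 1) * (q ^ C * q ^ C) + 1)) + q ^ C
      ≤ p ^ C * (q ^ (2 * C + 1) + ((C + 1) * q ^ (2 * C + 1) + q ^ (2 * C + 1))) +
        q ^ (2 * C + 1) := by gcongr
    _ = (p ^ C * (C + 3) + 1) * q ^ (2 * C + 1) := by ring

theorem log_le (δ : ℝ) (hδ : 0 < δ) : ∀ᶠ N : ℕ in atTop,
    ((Nat.log 2 (N - 1) + 1 : ℕ) : ℝ) ≤ (N : ℝ) ^ δ := by
  have h1 : Tendsto (fun N : ℕ => (N : ℝ)) atTop atTop := tendsto_natCast_atTop_atTop
  have h2 := ((isLittleO_log_rpow_atTop hδ).def (c := 1 / 4) (by norm_num))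
  have h3 := (tendsto_rpow_atTop hδ).eventually_ge_atTop 2
  filter_upwards [h1.eventually h2, h1.eventually h3, eventually_ge_atTop 2] with N h2 h3 hN
  have hN0 : (0 : ℝ) < N := by
    have : 0 < N := by omega
    exact_mod_cast this
  have hlog : 0 ≤ Real.log N := Real.log_natCast_nonneg N
  rw [Real.norm_of_nonneg hlog, Real.norm_of_nonneg (by positivity)] at h2
  have h4 : ((Nat.log 2 (N - 1) : ℕ) : ℝ) * Real.log 2 ≤ Real.log N := by
    have h5 : 2 ^ Nat.log 2 (N - 1) ≤ N - 1 := Nat.pow_log_le_self 2 (by omega)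
    have h6 : (2 : ℝ) ^ Nat.log 2 (N - 1) ≤ N := by
      have : 2 ^ Nat.log 2 (N - 1) ≤ N := by omega
      exact_mod_cast this
    have h7 := Real.log_le_log (by positivity) h6
    rwa [Real.log_pow] at h7
  have h8 : (1 / 2 : ℝ) < Real.log 2 := by
    have := Real.log_two_gt_d9
    linarith
  have h9 : (0 : ℝ) ≤ ((Nat.log 2 (N - 1) : ℕ) : ℝ) := Nat.cast_nonneg _
  push_cast
  nlinarith

end CNTM

open CNTM in
theorem specCNT : SpecCNT := by
  intro S p C hp hno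
  set e : ℝ := 2 * (C : ℝ) + 1 with he
  have he0 : 0 < e := by positivity
  set δ : ℝ := 1 / (4 * e) with hδ
  have hδ0 : 0 < δ := by positivity
  refine ⟨δ, hδ0, ?_⟩
  have h1 : Tendsto (fun N : ℕ => (N : ℝ)) atTop atTop := tendsto_natCast_atTop_atTop
  have e1 := log_le δ hδ0
  have e2 := h1.eventually ((tendsto_rpow_atTop hδ0).eventually_ge_atTop 4)
  have e3 := h1.eventually ((tendsto_rpow_atTop (y := 2 * δ) (by positivity)).eventually_ge_atTop
    ((C : ℝ)))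
  have e4 := h1.eventually ((tendsto_rpow_atTop (y := (1 / 2 : ℝ)) (by norm_num)).eventually_ge_atTop
    ((p : ℝ) ^ C * (C + 3) + 2))
  obtain ⟨N₀, hN₀⟩ := eventually_atTop.1 (e1.and (e2.and (e3.and (e4.and (eventually_ge_atTop 2)))))
  refine ⟨N₀, fun N hN => ?_⟩
  obtain ⟨f1, f2, f3, f4, f5⟩ := hN₀ N hN
  by_contra hcon
  rw [not_le] at hcon
  have hN0 : (0 : ℝ) < N := by
    have : 0 < N := by omega
    exact_mod_cast this
  set A : ℕ := DD.cnt S (N - 1) with hA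
  set q : ℕ := max (A + 2) (max ((Nat.log 2 (N - 1) + 1) ^ 2) C) with hq
  have hsq : (N : ℝ) ^ (2 * δ) = ((N : ℝ) ^ δ) ^ 2 := by
    rw [mul_comm, Real.rpow_mul hN0.le]
    norm_num
  have hq1 : (q : ℝ) ≤ (N : ℝ) ^ (2 * δ) := by
    rw [hq]
    push_cast
    refine max_le ?_ (max_le ?_ f3)
    · rw [hsq]
      nlinarith
    · rw [hsq]
      push_cast at f1
      gcongr
  have hb := bound S p C (N - 1) q hp ⟨le_max_left _ _, (le_max_left _ _).trans (le_max_right _ _)⟩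
    (by
      rintro ⟨Z, hZ⟩
      exact hno (N - 1) q Z ⟨le_max_left _ _, (le_max_left _ _).trans (le_max_right _ _)⟩
        ((le_max_right _ _).trans (le_max_right _ _)) hZ)
  have hq2 : (q : ℝ) ^ (2 * C + 1) ≤ (N : ℝ) ^ (1 / 2 : ℝ) := by
    calc (q : ℝ) ^ (2 * C + 1) ≤ ((N : ℝ) ^ (2 * δ)) ^ (2 * C + 1) := by
          gcongr
      _ = (N : ℝ) ^ (1 / 2 : ℝ) := by
          rw [← Real.rpow_natCast, ← Real.rpow_mul hN0.le]
          congr 1
          rw [hδ, he]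
          push_cast
          field_simp
          norm_num
  have hb1 : ((N - 1 : ℕ) : ℝ) < ((p : ℝ) ^ C * (C + 3) + 1) * (q : ℝ) ^ (2 * C + 1) := by
    exact_mod_cast hb
  rw [Nat.cast_sub (by omega), Nat.cast_one] at hb1
  have hNs : (N : ℝ) = (N : ℝ) ^ (1 / 2 : ℝ) * (N : ℝ) ^ (1 / 2 : ℝ) := by
    rw [← Real.rpow_add hN0]
    norm_num
  have hc : 0 < (p : ℝ) ^ C * (C + 3) + 1 := by positivity
  set s : ℝ := (N : ℝ) ^ (1 / 2 : ℝ) with hs
  have hs1 : (1 : ℝ) ≤ s := by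
    have : (0 : ℝ) ≤ (p : ℝ) ^ C * (C + 3) := by positivity
    linarith
  have hb2 : (N : ℝ) - 1 < ((p : ℝ) ^ C * (C + 3) + 1) * s := by
    refine lt_of_lt_of_le hb1 ?_
    gcongr
  nlinarith

end Pool.Agent.Lib.MP5b6025.RM
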