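import Pool.Agent.Lib.MP_5b6025_nt.RM.CNT
import Pool.Agent.Lib.MP_5b6025_nt.RM.ASM

/-!
# Ramified primes: combinatorics of the cuts (`SpecCOM`)
-/

set_option autoImplicit false

namespace Pool.Agent.Lib.MP5b6025.RM
namespace COMM

open Classical in
/-- the largest cut `≤ v`, `0` if there is none -/
noncomputable def ph (S : Set ℕ) (p W q C v : ℕ) : ℕ :=
  Nat.findGreatest (fun k => Cut S p W q C k) v

variable {S : Set ℕ} {p W q C : ℕ}

theorem ph_le (v : ℕ) : ph S p W q C v ≤ v := by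
  classical
  exact Nat.findGreatest_le v

theorem le_ph {v k : ℕ} (hk : Cut S p W q C k) (h : k ≤ v) : k ≤ ph S p W q C v := by
  classical
  exact Nat.le_findGreatest h hk

theorem ph_cut (v : ℕ) : ph S p W q C v = 0 ∨ Cut S p W q C (ph S p W q C v) := by
  classical
  by_cases h : ph S p W q C v = 0
  · exact Or.inl h
  · exact Or.inr (Nat.findGreatest_of_ne_zero (P := fun k => Cut S p W q C k) rfl h)

/-- a cut in every window of length `G` -/
theorem window (hp : 1 ≤ p) (hA : Adm S W q) (G y : ℕ)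
    (hG : G = (C + 1) * (q ^ C * q ^ C) + 1)
    (hW : p ^ C * (y + G) + q ^ C ≤ W) :
    ∃ Z : ℕ, y ≤ Z ∧ Z < y + G ∧ Cut S p W q C Z := by
  classical
  set M : Finset ℕ := (Finset.range (C + 1)).image (fun i => p ^ i) with hM
  have hle : ∀ i : ℕ, i ≤ C → p ^ i ≤ p ^ C := fun i hi => Nat.pow_le_pow_right hp hi
  have h3 := (DD.specGAP S W (DD.cnt S W) C le_rfl).2.2 (q ^ C) G y M ?_ ?_
  · obtain ⟨Y, h1, h2, h4⟩ := h3
    refine ⟨Y, h1, h2, ?_, ?_⟩
    · intro i hi
      exact h4 (p ^ i) (Finset.mem_image.2 ⟨i, Finset.mem_range.2 (by omega), rfl⟩)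
    · calc p ^ C * Y + q ^ C ≤ p ^ C * (y + G) + q ^ C := by
            apply Nat.add_le_add_right
            exact Nat.mul_le_mul_left _ h2.le
        _ ≤ W := hW
  · intro μ hμ
    obtain ⟨i, hi, rfl⟩ := Finset.mem_image.1 hμ
    have hi' : i ≤ C := by have := Finset.mem_range.1 hi; omega
    refine ⟨Nat.one_le_pow _ _ hp, ?_⟩
    calc p ^ i * (y + G) + q ^ C ≤ p ^ C * (y + G) + q ^ C := by
          apply Nat.add_le_add_right
          exact Nat.mul_le_mul_right _ (hle i hi')
      _ ≤ W := hW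
  · have h1 : M.card ≤ C + 1 := by
      have := Finset.card_image_le (s := Finset.range (C + 1)) (f := fun i => p ^ i)
      rwa [Finset.card_range] at this
    have h2 : (DD.cnt S W + 1) ^ C ≤ q ^ C := Nat.pow_le_pow_left (by have := hA.1; omega) C
    calc M.card * ((DD.cnt S W + 1) ^ C * q ^ C) ≤ (C + 1) * (q ^ C * q ^ C) :=
          Nat.mul_le_mul h1 (Nat.mul_le_mul_right _ h2)
      _ < G := by omega

/-- `v < φ v + G` if there is room above `v` -/
theorem lt_ph (hp : 1 ≤ p) (hA : Adm S W q) (G v : ℕ)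
    (hG : G = (C + 1) * (q ^ C * q ^ C) + 1)
    (hW : p ^ C * (v + 1) + q ^ C ≤ W) : v < ph S p W q C v + G := by
  by_cases h : v < G
  · omega
  · obtain ⟨Z, h1, h2, h3⟩ := window (C := C) hp hA G (v + 1 - G) hG
      (by rw [show v + 1 - G + G = v + 1 by omega]; exact hW)
    have h4 := le_ph h3 (show Z ≤ v by omega)
    omega

/-- sums of sums -/
theorem isSumS_sum {S : Set ℕ} {D m : ℕ} (w : Fin m → ℕ) (h : ∀ j, DD.IsSumS S D (w j)) :
    DD.IsSumS S (m * D) (∑ j, w j) := by
  induction m with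
  | zero => simpa using DD.Basic.isSumS_zero S 0
  | succ m ih =>
    rw [Fin.sum_univ_castSucc]
    have h1 := DD.Basic.isSumS_add (ih (fun j => w j.castSucc) fun j => h _) (h (Fin.last m))
    have e : (m + 1) * D = m * D + D := by ring
    rw [e]
    exact h1

end COMM

open COMM in
theorem specCOM : SpecCOM := by
  intro p C m D hp
  set C' : ℕ := 2 * C + 3 + m + D + m * D with hC'
  refine ⟨C', by omega, ?_⟩
  intro S W q Z' hA hq hZ
  have hq1 : 1 ≤ q := adm_pos hA
  refine ⟨ph S p W q C, ph_le, fun v k hk h => le_ph hk h, ph_cut, ?_⟩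
  intro w hw hlt
  set G : ℕ := (C + 1) * (q ^ C * q ^ C) + 1 with hG
  have hZC : Cut S p W q C Z' := cut_mono hp hq1 (by omega) hZ
  have hgap : ∀ v : ℕ, DD.IsSumS S C' v → v < Z' ∨ Z' + q ^ C' ≤ v := by
    intro v hv
    have h := hZ.gap 0 (Nat.zero_le _) v hv
    simp only [pow_zero, one_mul, Nat.cast_pow] at h
    rcases h with h | h
    · left; exact_mod_cast h
    · right; exact_mod_cast h
  -- all `w j` are below `Z'`
  have hwj : ∀ j, w j < Z' := by
    intro j
    by_contra hc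
    rw [not_lt] at hc
    have h1 : Z' ≤ ph S p W q C (w j) := le_ph hZC hc
    have h2 : ph S p W q C (w j) ≤ ∑ j, ph S p W q C (w j) :=
      Finset.single_le_sum (f := fun j => ph S p W q C (w j)) (fun _ _ => Nat.zero_le _)
        (Finset.mem_univ j)
    omega
  have hroom : ∀ j, p ^ C * (w j + 1) + q ^ C ≤ W := by
    intro j
    refine le_trans ?_ hZC.le
    apply Nat.add_le_add_right
    exact Nat.mul_le_mul_left _ (hwj j)
  have hG2 : ∀ j, w j < ph S p W q C (w j) + G := fun j => lt_ph hp hA G (w j) hG (hroom j)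
  have hsum : ∑ j, w j ≤ ∑ j, ph S p W q C (w j) + m * G := by
    calc ∑ j, w j ≤ ∑ j, (ph S p W q C (w j) + G) := Finset.sum_le_sum fun j _ => (hG2 j).le
      _ = ∑ j, ph S p W q C (w j) + m * G := by
        rw [Finset.sum_add_distrib, Finset.sum_const, Finset.card_univ, Fintype.card_fin,
          smul_eq_mul]
  -- size of `m G`
  have hmG : m * G ≤ q ^ C' := by
    have h1 : G ≤ q ^ (2 * C + 1) := by
      have e : q ^ C * q ^ C = q ^ (2 * C) := by rw [← pow_add]; congr 1; ring
      have e2 : q ^ (2 * C + 1) = q ^ (2 * C) * q := by rw [pow_succ]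
      have e3 : 1 ≤ q ^ (2 * C) := Nat.one_le_pow _ _ hq1
      have e4 : C + 2 ≤ q := by omega
      rw [hG, e, e2]
      calc (C + 1) * q ^ (2 * C) + 1 ≤ (C + 1) * q ^ (2 * C) + q ^ (2 * C) :=
            Nat.add_le_add_left e3 _
        _ = (C + 2) * q ^ (2 * C) := by ring
        _ ≤ q * q ^ (2 * C) := Nat.mul_le_mul_right _ e4
        _ = q ^ (2 * C) * q := mul_comm _ _
    calc m * G ≤ q * q ^ (2 * C + 1) := Nat.mul_le_mul (by omega) h1
      _ = q ^ (2 * C + 2) := by ring
      _ ≤ q ^ C' := Nat.pow_le_pow_right hq1 (by omega)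
  rcases hgap _ (DD.Basic.isSumS_mono (isSumS_sum w hw) (by omega)) with h | h
  · exact h
  · exfalso
    omega

end Pool.Agent.Lib.MP5b6025.RM
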