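import Pool.Agent.Lib.MP_5b6025_nt.RM.Defs

/-!
# Ramified primes: the modules

Proof text: `/team-store/MP_5b6025_RM.md`. Basic facts on `GapS`, `IsSumS`, `cnt`, `TT`, `tau` are in
`DD/Basic.lean` (`LL F Z = DD.tau (Z : ℤ) F`, `VV b t f Z = DD.TT (tq b t) f (Z : ℤ)` up to
`Int.toNat_natCast`).
-/

set_option autoImplicit false

open Polynomial NumberField

namespace Pool.Agent.Lib.MP5b6025.RM

/-- Module COM [200]: combinatorics of the cuts. `φ v` = the largest cut of level `C` which is `≤ v`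
(`0` if there is none): `Nat.findGreatest`. By `DD.specGAP` (part 3, `K = q^C`, `m = C`,
`ℳ = {p^i : i ≤ C}`) every window `[y, y + G)`, `G = (C+1) (A+1)^C q^C + 1`, `A = cnt S W`,
`p^C (y + G) + q^C ≤ W` contains a cut of level `C`, so `v < φ v + G` for all `v < Z'`
(window `[v + 1 - G, v + 1)`, if `G ≤ v`; `p^C (v+1) + q^C ≤ p^(C') Z' + q^(C') ≤ W`). Choose `C'` with
`C + 1 ≤ C'`, `m D ≤ C'` and `m G ≤ q^(C')` for all `q ≥ C'` (`A + 1 ≤ q`; `G ≤ q^(2C+2)` if `q ≥ C + 3`,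
`m ≤ q`). If `∑ φ (w j) < Z' ≤ ∑ w j` then `∑ w j` is a sum of at most `C'` elements of `S`
in `[Z', Z' + q^(C'))`, contradiction to the gap `i = 0` (every `w j` with `w j ≥ Z'` is excluded in the
same way: `w j` itself is such a sum or is `≥ Z' + q^C'`; so for `w j ≥ Z'` one has
`w j ≥ Z' + q^(C')`, and then `φ (w j) ≥ Z'` since `Z'` is a cut of level `C`, contradiction to
`∑ φ (w j) < Z'`: hence all `w j < Z'`). -/
def SpecCOM : Prop :=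
  ∀ (p C m D : ℕ), 1 ≤ p → ∃ C' : ℕ, C ≤ C' ∧ ∀ (S : Set ℕ) (W q Z' : ℕ), Adm S W q → C' ≤ q →
    Cut S p W q C' Z' → ∃ φ : ℕ → ℕ, (∀ v, φ v ≤ v) ∧
      (∀ v k, Cut S p W q C k → k ≤ v → k ≤ φ v) ∧ (∀ v, φ v = 0 ∨ Cut S p W q C (φ v)) ∧
      ∀ w : Fin m → ℕ, (∀ j, DD.IsSumS S D (w j)) → ∑ j, φ (w j) < Z' → ∑ j, w j < Z'

/-- Module CLP [120]: collapse. Replace the factors by their truncations
`∑_{v < Z} F_v Y^v` (coefficients below `Z` of a product only depend on the coefficients below `Z`),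
expand both products with `Finset.prod_univ_sum`: sums over `w ∈ Fintype.piFinset fun _ => range Z` of
`∏ F_j (w j)` times `[∑ w j < Z]` respectively `[∑ φ (w j) < Z]`; termwise equal. -/
def SpecCLP : Prop :=
  ∀ (m Z : ℕ) (F : Fin m → PowerSeries ℚ) (φ : ℕ → ℕ), (∀ v, φ v ≤ v) →
    (∀ w : Fin m → ℕ, (∀ j, PowerSeries.coeff (w j) (F j) ≠ 0) → ∑ j, φ (w j) < Z →
      ∑ j, w j < Z) →
    LL (∏ j, F j) Z = PL (∏ j, HH (F j) φ Z) Z

/-- Module BLK [100]: block masses. Put `M_k = PL (HH F φ Z) k = ∑_{v < Z, φ v < k} F_v`. If `P k`,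
`k ≤ Z`: `φ v < k ↔ v < k`, so `M_k = LL F k`. If `k ≠ 0` and not `P k` then `φ v ≠ k` for all `v`, so
`M_k = M_(k+1)`. Downward induction from `P Z`: all `M_k`, `k ≤ Z`, are in `Op p` (`M_0 = 0`);
the coefficient of `Y^k` is `M_(k+1) - M_k` (`k < Z`) or `0` (`k ≥ Z`, as `φ v ≤ v < Z`). -/
def SpecBLK : Prop :=
  ∀ (p : ℕ) [Fact p.Prime] (F : PowerSeries ℚ) (φ : ℕ → ℕ) (Z : ℕ) (P : ℕ → Prop),
    (∀ v, φ v ≤ v) → (∀ v k, P k → k ≤ v → k ≤ φ v) → (∀ v, φ v = 0 ∨ P (φ v)) → P Z →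
    (∀ k, k ≤ Z → P k → LL F k ∈ Op p) →
    (∀ k, (HH F φ Z).coeff k ∈ Op p) ∧ (∀ k, k ≤ Z → P k → PL (HH F φ Z) k = LL F k)

/-- Module FRB [100]: Frobenius. In every commutative ring `(∑ x_i)^p = ∑ x_i^p + p r`
(`exists_add_pow_prime_eq` or `Ideal.Quotient` by `p`). Lift `P` to a polynomial over `Op p`, apply this to
`P = ∑ μ_i Y^i` and to `∑_{k < Z} μ_k`; the sum of the coefficients of `∑ μ_i^p Y^(p i)` at the
indices below `p Z` is `∑_{i < Z} μ_i^p`. -/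
def SpecFRB : Prop :=
  ∀ (p : ℕ) [Fact p.Prime] (P : ℚ[X]) (Z : ℕ), (∀ k, P.coeff k ∈ Op p) →
    ∃ r ∈ Op p, PL (P ^ p) (p * Z) = PL P Z ^ p + p * r

/-- Module EXC [200]: exactness. Choose `d ≥ 1` with `d h ∈ ℤ[X]`, `D ≥ 1, natDegree`; at a cut `Z` of
level `C` (`i = 0`) `[Z, Z + q^C)` contains no sum of at most `C ≥ D` positions, `DC.specTAPP` (with
`K = q^C`, `W`) gives `DC.TT b t (d h) Z = 0`, because `l1 (d h) * GG B D W = c (B (W+1))^(D+1) < b^q ≤ b^(q^C)`: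
`W + 1 ≤ 2^(log_2 W + 1)`, `(log_2 W + 1)^2 ≤ q`, so the left side is at most
`2^(a + e √q)` with constants `a, e` of `h`, `B`: less than `2^q` if `q ≥ C`, `C` large. And
`DC.TT b t Q Z = (VV b t (Q : ℚ[X]) Z : ℝ)` for `Q ∈ ℤ[X]` (cast and rescale, compare `EXAM.psi_aeval` in
`DD/EXA.lean`). -/
def SpecEXC : Prop :=
  ∀ (b : ℕ) (t : ℕ → ℤ) (B p : ℕ) (h : ℚ[X]), 2 ≤ b → (∀ n, |t n| ≤ B) →
    aeval (DC.bet b t) h = 0 → ∃ C : ℕ, ∀ W q Z : ℕ, Adm (Spt t) W q → C ≤ q →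
      Cut (Spt t) p W q C Z → VV b t h Z = 0

/-- Module ALG [250]: the ring `R` contains `1 / p`. Step 1: for `θ ∈ ℚ(x)` some `p^j θ ∈ R`
(`θ = f (x)`, `f ∈ ℚ[X]`, common denominator `p^j s`, `p ∤ s`). Step 2 (descent): if `η ∈ R`, `n ≥ 1` and
`η^n = p z`, `z ∈ R`, then `η / p ∈ R` (pass to an exponent `p^k ≥ n`, then the hypothesis `k` times).
Step 3: `θ ∈ ℚ(x)` integral over `ℤ` implies `θ ∈ R`: if `η = p^j θ ∈ R`, `j ≥ 1`, the equation of `θ` times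
`p^(j n)` shows `η^n ∈ p R`, so `p^(j-1) θ ∈ R`. Step 4: `θ ∈ 𝓞` in the radical of `(p)`: `θ / p ∈ R`.
Step 5: the hypothesis on the primes gives `p ∈ (radical (p))^2`: sum of products `α β` of elements of
the radical, so `1 / p = ∑ (α/p) (β/p) ∈ R`. -/
def SpecALG : Prop :=
  ∀ (p : ℕ) [Fact p.Prime] (x : ℝ) (R : Subring ℝ), IsAlgebraic ℚ x → x ∈ R →
    (∀ s : ℕ, ¬ p ∣ s → (1 / (s : ℝ)) ∈ R) →
    (∀ y ∈ R, ∀ z ∈ R, y ^ p = p * z → y / p ∈ R) →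
    (∀ P : Ideal (𝓞 (IntermediateField.adjoin ℚ {x})), P.IsPrime →
      ((p : ℕ) : 𝓞 (IntermediateField.adjoin ℚ {x})) ∈ P →
      ((p : ℕ) : 𝓞 (IntermediateField.adjoin ℚ {x})) ∈ P ^ 2) →
    (1 / (p : ℝ)) ∈ R

/-- Module RAD [150] (used by ALG, step 5): in a Dedekind domain, if every prime ideal which contains
`a ≠ 0` contains `a` in its square, then `a` is in the square of the radical of `(a)`. Proof: the
radical `J` is squarefree as a product of primes; if `P ∣ J` then `P ∣ (a)`, so `P^2 ∣ (a)`; compare the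
multiplicities (`normalizedFactors`, `count`): `J^2 ∣ (a)`. -/
def SpecRAD : Prop :=
  ∀ (A : Type) [CommRing A] [IsDedekindDomain A] (a : A), a ≠ 0 →
    (∀ P : Ideal A, P.IsPrime → a ∈ P → a ∈ P ^ 2) → a ∈ (Ideal.span {a}).radical ^ 2

/-- Module CNT [150]: from the absence of cuts to the power bound. If for some `C` there are no cuts of
level `C` for all admissible `(W, q)` with `q ≥ C`, then `#(S ∩ [0, N)) ≥ N^δ` for large `N`. Proof: with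
`W = N - 1` (so `cnt S W` is the number), `q = max (A + 2) ((log_2 W + 1)^2) C` + ...;
`DD.specGAP` (3) with `y = 1`, `K = q^C`, `m = C`, `ℳ = {p^i : i ≤ C}`,
`G = (C+1) (A+1)^C q^C + 1` shows `W < p^C (1 + G) + q^C ≤ c q^(2C+1)`, so `q ≥ W^(δ₁)`,
`δ₁ = 1 / (2C+2)` for large `W`, larger than `(log_2 W + 1)^2 + C`, so `A + 2 ≥ W^(δ₁)`. -/
def SpecCNT : Prop :=
  ∀ (S : Set ℕ) (p C : ℕ), 1 ≤ p →
    (∀ W q Z : ℕ, Adm S W q → C ≤ q → ¬ Cut S p W q C Z) →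
    ∃ δ : ℝ, 0 < δ ∧ ∃ N₀ : ℕ, ∀ N : ℕ, N₀ ≤ N → (N : ℝ) ^ δ ≤ DD.cnt S (N - 1)

end Pool.Agent.Lib.MP5b6025.RM
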