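import Pool.Agent.Lib.MP_5b6025_nt.DC.Tapp
import Pool.Agent.Lib.MP_5b6025_nt.RM.Spec

/-!
# Ramified primes, module EXC: exactness at the cuts
-/

set_option autoImplicit false

open Polynomial

namespace Pool.Agent.Lib.MP5b6025.RM

namespace EXCM

/-- Cast and rescale: the coefficients to `ℚ`, `Y ↦ Y / b`. -/
noncomputable def psi (b : ℕ) : PowerSeries ℤ →+* PowerSeries ℚ :=
  (PowerSeries.rescale ((b : ℚ)⁻¹)).comp (PowerSeries.map (Int.castRingHom ℚ))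

theorem coeff_psi (b : ℕ) (f : PowerSeries ℤ) (v : ℕ) :
    PowerSeries.coeff v (psi b f) = ((PowerSeries.coeff v f : ℤ) : ℚ) / (b : ℚ) ^ v := by
  rw [psi, RingHom.comp_apply, PowerSeries.coeff_rescale, PowerSeries.coeff_map, inv_pow,
    div_eq_inv_mul]
  rfl

theorem psi_FF (b : ℕ) (t : ℕ → ℤ) : psi b (DC.FF t) = PowerSeries.mk (tq b t) := by
  ext v
  rw [coeff_psi, PowerSeries.coeff_mk, DC.FF, PowerSeries.coeff_mk, tq]

theorem psi_aeval (b : ℕ) (t : ℕ → ℤ) (Q : ℤ[X]) :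
    psi b (aeval (DC.FF t) Q) =
      aeval (PowerSeries.mk (tq b t)) (Q.map (algebraMap ℤ ℚ)) := by
  rw [aeval_def, hom_eval₂, aeval_def, eval₂_map, psi_FF]
  congr 1
  exact Subsingleton.elim _ _

/-- The real truncated value of an integral polynomial is the rational one. -/
theorem cast_VV (b : ℕ) (t : ℕ → ℤ) (Q : ℤ[X]) (Z : ℕ) :
    ((VV b t (Q.map (algebraMap ℤ ℚ)) Z : ℚ) : ℝ) = DC.TT b t Q (Z : ℤ) := by
  rw [VV, LL, DC.TT, DC.tau, Int.toNat_natCast, ← psi_aeval]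
  push_cast
  refine Finset.sum_congr rfl fun v _ => ?_
  rw [coeff_psi]
  push_cast
  rfl

theorem VV_smul (b : ℕ) (t : ℕ → ℤ) (h : ℚ[X]) (d : ℤ) (Z : ℕ) :
    VV b t (d • h) Z = d * VV b t h Z := by
  rw [VV, VV, LL, LL, Finset.mul_sum]
  refine Finset.sum_congr rfl fun v _ => ?_
  rw [map_zsmul, map_zsmul, zsmul_eq_mul]

theorem gap_of_cut {t : ℕ → ℤ} {p W q C Z D : ℕ} (hc : Cut (Spt t) p W q C Z) (hD : D ≤ C) :
    DC.Gap t ((q ^ C : ℕ) : ℤ).toNat D (Z : ℤ) := by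
  intro v hv
  have h0 := hc.gap 0 (Nat.zero_le _) v (by
    obtain ⟨ν, h1, h2, h3⟩ := hv
    exact ⟨ν, h1.trans hD, h2, h3⟩)
  rw [pow_zero, one_mul] at h0
  simpa using h0

end EXCM

open EXCM in
/-- Module EXC. -/
theorem specEXC : SpecEXC := by
  intro b t B p h hb hB h0
  obtain ⟨d, hd, hQ⟩ := IsLocalization.integerNormalization_spec (nonZeroDivisors ℤ) h
  set Q : ℤ[X] := IsLocalization.integerNormalization (nonZeroDivisors ℤ) h with hQdef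
  have hd0 : d ≠ 0 := nonZeroDivisors.ne_zero hd
  have hQ0 : aeval (DC.bet b t) Q = 0 := by
    rw [← aeval_map_algebraMap ℚ, hQ, map_zsmul, h0, smul_zero]
  obtain ⟨B', hB'⟩ : ∃ B' : ℕ, B' = max B 1 := ⟨_, rfl⟩
  obtain ⟨D, hD⟩ : ∃ D : ℕ, D = max 1 Q.natDegree := ⟨_, rfl⟩
  have hB1 : 1 ≤ B' := by rw [hB']; exact le_max_right _ _
  have hBt : ∀ n, |t n| ≤ B' := by
    intro n
    refine (hB n).trans ?_
    rw [hB']
    exact_mod_cast le_max_left _ _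
  have hD1 : 1 ≤ D := by rw [hD]; exact le_max_left _ _
  have hQD : Q.natDegree ≤ D := by rw [hD]; exact le_max_right _ _
  -- the constant
  obtain ⟨a, ha⟩ : ∃ a : ℕ, DC.l1 Q * (2 * (B' : ℝ) ^ (D + 1)) < 2 ^ a :=
    pow_unbounded_of_one_lt _ (by norm_num)
  refine ⟨2 * a + (D + 1) ^ 2 + 2, ?_⟩
  intro W q Z hA hq hc
  obtain ⟨C, hC⟩ : ∃ C : ℕ, C = 2 * a + (D + 1) ^ 2 + 2 := ⟨_, rfl⟩
  rw [← hC] at hq hc
  have hC1 : 1 ≤ C := by omega
  have hDC : D ≤ C := by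
    rw [hC]
    nlinarith
  have hq2 : 2 ≤ q := by
    have := hA.1
    omega
  have hqC : q ≤ q ^ C := Nat.le_self_pow (by omega) q
  have hp : 1 ≤ p := by
    by_contra hp
    have hp0 : p = 0 := by omega
    have h1 := hc.gap 1 hC1 0 ⟨0, by simp, by simp, by simp⟩
    rw [hp0, pow_one, zero_mul, Nat.cast_zero, zero_add] at h1
    have h3 : (0 : ℤ) < ((q ^ C : ℕ) : ℤ) := by positivity
    rcases h1 with h1 | h1
    · exact lt_irrefl _ h1
    · exact absurd h1 (not_le.2 h3)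
  have hZW : Z ≤ W := by
    have h1 := hc.le
    have h2 : 1 ≤ p ^ C := Nat.one_le_pow _ _ hp
    have h3 : Z ≤ p ^ C * Z := Nat.le_mul_of_pos_left _ (by omega)
    omega
  have hDW : D ≤ W := by
    have h1 := hc.le
    omega
  have hgap : DC.Gap t (q ^ C) D (Z : ℤ) := by
    have := gap_of_cut (D := D) hc hDC
    rwa [Int.toNat_natCast] at this
  have hl1 : 0 ≤ DC.l1 Q := Finset.sum_nonneg fun _ _ => abs_nonneg _
  have hlt : DC.l1 Q * DC.GG B' D W < (b : ℝ) ^ (q ^ C) := by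
    obtain ⟨L, hL⟩ : ∃ L : ℕ, L = Nat.log 2 W + 1 := ⟨_, rfl⟩
    have hL2 : L ^ 2 ≤ q := by rw [hL]; exact hA.2
    have hW : ((W : ℝ) + 1) ≤ 2 ^ L := by
      have h1 : W < 2 ^ (Nat.log 2 W + 1) := Nat.lt_pow_succ_log_self (by norm_num) W
      rw [← hL] at h1
      exact_mod_cast h1
    have h1 : ((W : ℝ) + 1) ^ (D + 1) ≤ 2 ^ (L * (D + 1)) := by
      rw [pow_mul]
      exact pow_le_pow_left₀ (by positivity) hW _
    have h2 : DC.l1 Q * DC.GG B' D W ≤ DC.l1 Q * (2 * (B' : ℝ) ^ (D + 1)) * 2 ^ (L * (D + 1)) := by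
      rw [DC.GG, mul_pow]
      calc DC.l1 Q * (2 * ((B' : ℝ) ^ (D + 1) * ((W : ℝ) + 1) ^ (D + 1))) =
            DC.l1 Q * (2 * (B' : ℝ) ^ (D + 1)) * ((W : ℝ) + 1) ^ (D + 1) := by ring
        _ ≤ _ := mul_le_mul_of_nonneg_left h1 (by positivity)
    have h3 : a + L * (D + 1) ≤ q := by
      have h4 : 2 * (L * (D + 1)) ≤ L ^ 2 + (D + 1) ^ 2 := by
        have := two_mul_le_add_sq L (D + 1)
        linarith
      omega
    calc DC.l1 Q * DC.GG B' D W ≤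
          DC.l1 Q * (2 * (B' : ℝ) ^ (D + 1)) * 2 ^ (L * (D + 1)) := h2
      _ < 2 ^ a * 2 ^ (L * (D + 1)) := mul_lt_mul_of_pos_right ha (by positivity)
      _ = 2 ^ (a + L * (D + 1)) := by rw [pow_add]
      _ ≤ 2 ^ (q ^ C) := pow_le_pow_right₀ (by norm_num) (h3.trans hqC)
      _ ≤ (b : ℝ) ^ (q ^ C) := pow_le_pow_left₀ (by norm_num) (by exact_mod_cast hb) _
  have hT := (DC.specTAPP b t B' D W (q ^ C) Q Z hb hB1 hBt hD1 hDW hQD hZW
    (by exact_mod_cast hgap)).2 hQ0 hlt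
  rw [← cast_VV, hQ, VV_smul] at hT
  have h5 : (d : ℚ) * VV b t h Z = 0 := by exact_mod_cast hT
  rcases mul_eq_zero.1 h5 with h6 | h6
  · exact absurd (by exact_mod_cast h6) hd0
  · exact h6

end Pool.Agent.Lib.MP5b6025.RM
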