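import Pool.Agent.Lib.MP_5b6025_nt.RM.Spec

/-!
# Ramified primes, module FRB: Frobenius
-/

set_option autoImplicit false

open Polynomial

namespace Pool.Agent.Lib.MP5b6025.RM

namespace FRBM

/-- In a commutative ring `(∑ f)^p = ∑ f^p + p r`. -/
theorem sum_pow_p {A ι : Type*} [CommRing A] {p : ℕ} (hp : p.Prime) (f : ι → A) (s : Finset ι) :
    ∃ r : A, (∑ i ∈ s, f i) ^ p = ∑ i ∈ s, f i ^ p + p * r := by
  classical
  induction s using Finset.induction_on with
  | empty => exact ⟨0, by simp [hp.ne_zero]⟩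
  | insert a s ha ih =>
    obtain ⟨r, hr⟩ := ih
    obtain ⟨r', hr'⟩ := exists_add_pow_prime_eq hp (f a) (∑ i ∈ s, f i)
    refine ⟨r + f a * (∑ i ∈ s, f i) * r', ?_⟩
    rw [Finset.sum_insert ha, Finset.sum_insert ha, hr', hr]
    ring

/-- The statement for polynomials over any commutative ring. -/
theorem gen {A : Type*} [CommRing A] {p : ℕ} (hp : p.Prime) (Q : A[X]) (Z : ℕ) :
    ∃ r : A, ∑ v ∈ Finset.range (p * Z), (Q ^ p).coeff v =
      (∑ v ∈ Finset.range Z, Q.coeff v) ^ p + p * r := by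
  classical
  set N := Q.natDegree + 1 + Z with hN
  have hQ : Q = ∑ i ∈ Finset.range N, C (Q.coeff i) * X ^ i := by
    conv_lhs => rw [Q.as_sum_range' N (by omega)]
    exact Finset.sum_congr rfl fun i _ => by rw [C_mul_X_pow_eq_monomial]
  obtain ⟨R, hR⟩ := sum_pow_p hp (fun i => C (Q.coeff i) * X ^ i) (Finset.range N)
  obtain ⟨r, hr⟩ := sum_pow_p hp (fun i => Q.coeff i) (Finset.range Z)
  rw [← hQ] at hR
  refine ⟨∑ v ∈ Finset.range (p * Z), R.coeff v - r, ?_⟩
  have h1 : ∀ v, (Q ^ p).coeff v =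
      ∑ i ∈ Finset.range N, (if v = i * p then Q.coeff i ^ p else 0) + p * R.coeff v := by
    intro v
    rw [hR, coeff_add, finsetSum_coeff]
    congr 1
    · refine Finset.sum_congr rfl fun i _ => ?_
      rw [mul_pow, ← C_pow, ← pow_mul, coeff_C_mul, coeff_X_pow, mul_ite, mul_one, mul_zero]
    · rw [← C_eq_natCast, coeff_C_mul]
  have h2 : ∑ v ∈ Finset.range (p * Z), ∑ i ∈ Finset.range N,
      (if v = i * p then Q.coeff i ^ p else 0) = ∑ i ∈ Finset.range Z, Q.coeff i ^ p := by
    rw [Finset.sum_comm]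
    have h3 : ∀ i ∈ Finset.range N, ∑ v ∈ Finset.range (p * Z),
        (if v = i * p then Q.coeff i ^ p else 0) = if i < Z then Q.coeff i ^ p else 0 := by
      intro i _
      rw [Finset.sum_ite_eq']
      refine if_congr ?_ rfl rfl
      rw [Finset.mem_range, mul_comm i p]
      exact ⟨fun h => lt_of_mul_lt_mul_left h (Nat.zero_le _),
        fun h => Nat.mul_lt_mul_of_pos_left h hp.pos⟩
    rw [Finset.sum_congr rfl h3, ← Finset.sum_filter]
    refine Finset.sum_congr ?_ fun _ _ => rfl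
    ext i
    rw [Finset.mem_filter, Finset.mem_range, Finset.mem_range]
    omega
  rw [Finset.sum_congr rfl fun v _ => h1 v, Finset.sum_add_distrib, h2, ← Finset.mul_sum, hr]
  ring

end FRBM

theorem specFRB : SpecFRB := by
  intro p hpf P Z hP
  have hc : (↑P.coeffs : Set ℚ) ⊆ (Op p : Set ℚ) := by
    intro c hc
    rw [Finset.mem_coe, mem_coeffs_iff] at hc
    obtain ⟨n, _, hn⟩ := hc
    rw [hn]
    exact hP n
  obtain ⟨r, hr⟩ := FRBM.gen hpf.out (P.toSubring (Op p) hc) Z
  refine ⟨r, r.2, ?_⟩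
  have hm : (P.toSubring (Op p) hc).map (Op p).subtype = P := by
    ext n
    rw [coeff_map]
    exact coeff_toSubring _ _ _
  have h1 : ∀ v, (((P.toSubring (Op p) hc) ^ p).coeff v : ℚ) = (P ^ p).coeff v := by
    intro v
    conv_rhs => rw [← hm, ← Polynomial.map_pow, coeff_map]
    rfl
  have h2 : ∀ v, ((P.toSubring (Op p) hc).coeff v : ℚ) = P.coeff v := by
    intro v
    exact coeff_toSubring _ _ _
  have h3 := congrArg (Op p).subtype hr
  rw [map_sum, map_add, map_pow, map_sum, map_mul, map_natCast] at h3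
  rw [PL, PL]
  simp only [Subring.subtype_apply, h1, h2] at h3
  exact h3

end Pool.Agent.Lib.MP5b6025.RM
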