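import Pool.Agent.Lib.MP_5b6025_nt.RM.ASM
import Pool.Agent.Lib.MP_5b6025_nt.RM.ALG
import Pool.Agent.Lib.MP_5b6025_nt.RM.BLK
import Pool.Agent.Lib.MP_5b6025_nt.RM.CLP
import Pool.Agent.Lib.MP_5b6025_nt.RM.CNT
import Pool.Agent.Lib.MP_5b6025_nt.RM.COM
import Pool.Agent.Lib.MP_5b6025_nt.RM.EXC
import Pool.Agent.Lib.MP_5b6025_nt.RM.FRB

/-!
# Ramified primes: several numbers at once

The theorem `thm` for finitely many numbers `x_i` with expansions `t_i`: apply `thm` to a primitive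
element `∑ c_i x_i`, `c_i` integers, of the field generated by all `x_i`.
-/

set_option autoImplicit false

open Polynomial NumberField IntermediateField

namespace Pool.Agent.Lib.MP5b6025.RM
namespace JNTM

/-- a primitive element `α + c β` with an integer `c` -/
theorem prim_two {F E : Type*} [Field F] [Field E] [Algebra F E] [CharZero F] [CharZero E]
    {α β : E} (hα : IsAlgebraic F α) (hβ : IsAlgebraic F β) :
    ∃ c : ℤ, adjoin F {α, β} = adjoin F {α + c * β} := by
  have hfin : FiniteDimensional F (adjoin F {α, β}) := by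
    have : FiniteDimensional F (adjoin F ({α, β} : Set E)) := by
      apply IntermediateField.finiteDimensional_adjoin
      intro x hx
      rcases hx with rfl | hx
      · exact hα.isIntegral
      · rw [Set.mem_singleton_iff] at hx
        subst hx
        exact hβ.isIntegral
    exact this
  set L := adjoin F {α, β} with hL
  have hαL : α ∈ L := subset_adjoin F _ (by simp)
  have hβL : β ∈ L := subset_adjoin F _ (by simp)
  have hf : Finite (IntermediateField F L) :=
    Field.finite_intermediateField_of_exists_primitive_element F L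
      (Field.exists_primitive_element F L)
  obtain ⟨c, c', hne, he⟩ := Finite.exists_ne_map_eq_of_infinite
    (fun c : ℤ => adjoin F {(⟨α, hαL⟩ : L) + (c : L) * (⟨β, hβL⟩ : L)})
  refine ⟨c, le_antisymm ?_ ?_⟩
  · set M := adjoin F {(⟨α, hαL⟩ : L) + (c : L) * (⟨β, hβL⟩ : L)} with hM
    have h1 : (⟨α, hαL⟩ : L) + (c : L) * (⟨β, hβL⟩ : L) ∈ M := mem_adjoin_simple_self F _
    have h2 : (⟨α, hαL⟩ : L) + (c' : L) * (⟨β, hβL⟩ : L) ∈ M := by
      rw [he]
      exact mem_adjoin_simple_self F _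
    have hne' : ((c : L) - (c' : L)) ≠ 0 := by
      rw [sub_ne_zero]
      intro h
      apply hne
      have h' : ((c : L) : E) = ((c' : L) : E) := by rw [h]
      push_cast at h'
      exact_mod_cast h'
    have h3 : (⟨β, hβL⟩ : L) ∈ M := by
      have h4 : ((c : L) - (c' : L)) * (⟨β, hβL⟩ : L) ∈ M := by
        have h5 := M.sub_mem h1 h2
        have h6 : (⟨α, hαL⟩ : L) + (c : L) * (⟨β, hβL⟩ : L) -
            ((⟨α, hαL⟩ : L) + (c' : L) * (⟨β, hβL⟩ : L)) =
            ((c : L) - (c' : L)) * (⟨β, hβL⟩ : L) := by ring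
        rwa [h6] at h5
      have h5 : ((c : L) - (c' : L))⁻¹ * (((c : L) - (c' : L)) * (⟨β, hβL⟩ : L)) ∈ M := by
        refine M.mul_mem (M.inv_mem ?_) h4
        exact M.sub_mem (intCast_mem M _) (intCast_mem M _)
      rwa [inv_mul_cancel_left₀ hne'] at h5
    have h4 : (⟨α, hαL⟩ : L) ∈ M := by
      have h5 := M.sub_mem h1 (M.mul_mem (intCast_mem M c) h3)
      simpa using h5
    have hmap : M.map L.val = adjoin F {α + c * β} := by
      rw [hM, IntermediateField.adjoin_map, Set.image_singleton]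
      congr 2
    have h3' : β ∈ adjoin F {α + c * β} := by
      rw [← hmap]
      exact ⟨⟨β, hβL⟩, h3, rfl⟩
    have h4' : α ∈ adjoin F {α + c * β} := by
      rw [← hmap]
      exact ⟨⟨α, hαL⟩, h4, rfl⟩
    rw [hL, adjoin_le_iff]
    rintro x (rfl | hx)
    · exact h4'
    · rw [Set.mem_singleton_iff] at hx
      subst hx
      exact h3'
  · rw [adjoin_le_iff, Set.singleton_subset_iff]
    exact L.add_mem hαL (L.mul_mem (intCast_mem L c) hβL)

/-- a primitive element `∑ c_i x_i` with integers `c_i` -/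
theorem prim {ι : Type*} [DecidableEq ι] (x : ι → ℝ) (hx : ∀ i, IsAlgebraic ℚ (x i))
    (s : Finset ι) :
    ∃ c : ι → ℤ, adjoin ℚ (x '' (s : Set ι)) = adjoin ℚ {∑ i ∈ s, (c i : ℝ) * x i} := by
  induction s using Finset.induction_on with
  | empty => exact ⟨0, by simp⟩
  | insert a s ha ih =>
    obtain ⟨c, hc⟩ := ih
    have hy : IsAlgebraic ℚ (∑ i ∈ s, (c i : ℝ) * x i) := by
      have hmem : (∑ i ∈ s, (c i : ℝ) * x i) ∈ algebraicClosure ℚ ℝ := by
        refine (algebraicClosure ℚ ℝ).sum_mem fun i _ => ?_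
        exact (algebraicClosure ℚ ℝ).mul_mem ((algebraicClosure ℚ ℝ).intCast_mem _)
          (mem_algebraicClosure_iff.2 (hx i))
      exact mem_algebraicClosure_iff.1 hmem
    obtain ⟨e, he⟩ := prim_two hy (hx a)
    refine ⟨Function.update c a e, ?_⟩
    rw [Finset.coe_insert, Set.image_insert_eq, Set.insert_eq, adjoin_union, hc, ← adjoin_union,
      ← Set.insert_eq, Set.pair_comm, he, Finset.sum_insert ha]
    congr 2
    rw [Function.update_self, add_comm]
    congr 1
    refine Finset.sum_congr rfl fun i hi => ?_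
    rw [Function.update_of_ne (fun h => ha (by rw [← h]; exact hi))]

theorem summable_bet {b : ℕ} (hb : 2 ≤ b) {t : ℕ → ℤ} {B : ℕ} (hB : ∀ n, |t n| ≤ B) :
    Summable fun n => (t n : ℝ) / (b : ℝ) ^ n := by
  have hb1 : (1 : ℝ) < b := by exact_mod_cast (by omega : 1 < b)
  have hb0 : (0 : ℝ) < b := by linarith
  refine Summable.of_norm_bounded (g := fun n => (B : ℝ) * ((b : ℝ)⁻¹) ^ n) ?_ ?_
  · refine Summable.mul_left _ (summable_geometric_of_lt_one (by positivity) ?_)
    exact inv_lt_one_of_one_lt₀ hb1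
  · intro n
    rw [norm_div, norm_pow, Real.norm_of_nonneg hb0.le, div_eq_mul_inv, ← inv_pow]
    refine mul_le_mul_of_nonneg_right ?_ (by positivity)
    rw [Real.norm_eq_abs]
    exact_mod_cast hB n

theorem bet_sum {ι : Type*} (s : Finset ι) {b : ℕ} (hb : 2 ≤ b) (t : ι → ℕ → ℤ) (B : ℕ)
    (hB : ∀ i n, |t i n| ≤ B) (c : ι → ℤ) :
    DC.bet b (fun n => ∑ i ∈ s, c i * t i n) = ∑ i ∈ s, (c i : ℝ) * DC.bet b (t i) := by
  have h1 : ∀ i, Summable fun n => (c i : ℝ) * ((t i n : ℝ) / (b : ℝ) ^ n) := fun i =>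
    (summable_bet hb (hB i)).mul_left _
  have h2 : ∀ i, (c i : ℝ) * DC.bet b (t i) = ∑' n, (c i : ℝ) * ((t i n : ℝ) / (b : ℝ) ^ n) :=
    fun i => by rw [DC.bet, tsum_mul_left]
  rw [Finset.sum_congr rfl fun i _ => h2 i, ← Summable.tsum_finsetSum fun i _ => h1 i, DC.bet]
  refine tsum_congr fun n => ?_
  push_cast
  rw [Finset.sum_div]
  exact Finset.sum_congr rfl fun i _ => by ring

end JNTM

/-- Several numbers at once. -/
theorem joint (r b p B : ℕ) (t : Fin r → ℕ → ℤ) (hb : 2 ≤ b) (hB : ∀ i n, |t i n| ≤ B)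
    (hp : p.Prime) (hpb : ¬ p ∣ b) (x : Fin r → ℝ)
    (hx : ∀ i, x i = ∑' n, (t i n : ℝ) / (b : ℝ) ^ n) (halg : ∀ i, IsAlgebraic ℚ (x i))
    (hram : ∀ P : Ideal (𝓞 (IntermediateField.adjoin ℚ (Set.range x))), P.IsPrime →
      ((p : ℕ) : 𝓞 (IntermediateField.adjoin ℚ (Set.range x))) ∈ P →
      ((p : ℕ) : 𝓞 (IntermediateField.adjoin ℚ (Set.range x))) ∈ P ^ 2) :
    ∃ δ : ℝ, 0 < δ ∧ ∃ N₀ : ℕ, ∀ N : ℕ, N₀ ≤ N →
      (N : ℝ) ^ δ ≤ ((Finset.range N).filter fun n => ∃ i, t i n ≠ 0).card := by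
  obtain ⟨c, hc⟩ := JNTM.prim x halg Finset.univ
  rw [Finset.coe_univ, Set.image_univ] at hc
  rw [hc] at hram
  have hxb : ∀ i, x i = DC.bet b (t i) := hx
  have hy : (∑ i, (c i : ℝ) * x i) = DC.bet b (fun n => ∑ i, c i * t i n) := by
    rw [JNTM.bet_sum Finset.univ hb t B hB c]
    exact Finset.sum_congr rfl fun i _ => by rw [hxb i]
  have hyalg : IsAlgebraic ℚ (∑ i, (c i : ℝ) * x i) := by
    have hmem : (∑ i, (c i : ℝ) * x i) ∈ algebraicClosure ℚ ℝ := by
      refine (algebraicClosure ℚ ℝ).sum_mem fun i _ => ?_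
      exact (algebraicClosure ℚ ℝ).mul_mem ((algebraicClosure ℚ ℝ).intCast_mem _)
        (mem_algebraicClosure_iff.2 (halg i))
    exact mem_algebraicClosure_iff.1 hmem
  have hB' : ∀ n, |∑ i, c i * t i n| ≤ ((∑ i, (c i).natAbs * B : ℕ) : ℤ) := by
    intro n
    refine (Finset.abs_sum_le_sum_abs _ _).trans ?_
    push_cast
    refine Finset.sum_le_sum fun i _ => ?_
    rw [abs_mul]
    exact mul_le_mul_of_nonneg_left (hB i n) (abs_nonneg _)
  obtain ⟨δ, hδ, N₀, h⟩ := thm specCOM specCLP specBLK specFRB specEXC specALG specCNT b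
    (fun n => ∑ i, c i * t i n) (∑ i, (c i).natAbs * B) p hb hB' hp hpb
    (∑ i, (c i : ℝ) * x i) hy hyalg hram
  refine ⟨δ, hδ, N₀, fun N hN => (h N hN).trans ?_⟩
  rw [Nat.cast_le]
  refine Finset.card_le_card fun n hn => ?_
  rw [Finset.mem_filter] at hn ⊢
  refine ⟨hn.1, ?_⟩
  by_contra h0
  push Not at h0
  exact hn.2 (Finset.sum_eq_zero fun i _ => by rw [h0 i, mul_zero])

end Pool.Agent.Lib.MP5b6025.RM
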