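import Pool.Agent.Lib.MP_5b6025_nt.RM.Spec2
import Pool.Agent.Lib.MP_5b6025_nt.RM.ASM
import Pool.Agent.Lib.MP_5b6025_nt.RM.JNT

/-!
# Ramified primes, general form: assembly
-/

set_option autoImplicit false

open Polynomial NumberField

namespace Pool.Agent.Lib.MP5b6025.RM

theorem cut_set {S S' : Set ℕ} {p W q C Z : ℕ} (h : S' ⊆ S) (hc : Cut S p W q C Z) :
    Cut S' p W q C Z :=
  ⟨fun i hi => DD.Basic.gapS_set (hc.gap i hi) h, hc.le⟩

theorem adm_set {S S' : Set ℕ} {W q : ℕ} (h : S' ⊆ S) (ha : Adm S W q) : Adm S' W q :=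
  ⟨(Nat.add_le_add_right (DD.Basic.cnt_mono h W) 2).trans ha.1, ha.2⟩

variable {p : ℕ} [hp : Fact p.Prime] {S : Set ℕ} {b : ℕ} {t : ℕ → ℤ}

theorem itgS_add {f g : ℚ[X]} (hf : ItgS p S b t f) (hg : ItgS p S b t g) :
    ItgS p S b t (f + g) := by
  obtain ⟨C1, h1⟩ := hf
  obtain ⟨C2, h2⟩ := hg
  refine ⟨max C1 C2, fun W q Z ha hq hc => ?_⟩
  rw [VV_add]
  have hq1 := adm_pos ha
  exact (Op p).add_mem
    (h1 W q Z ha ((le_max_left _ _).trans hq) (cut_mono hp.1.one_le hq1 (le_max_left _ _) hc))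
    (h2 W q Z ha ((le_max_right _ _).trans hq) (cut_mono hp.1.one_le hq1 (le_max_right _ _) hc))

theorem itgS_C {r : ℚ} (hr : r ∈ Op p) : ItgS p S b t (C r) := by
  refine ⟨0, fun W q Z ha _ hc => ?_⟩
  rw [VV_C b t r (cut_pos (adm_pos ha) hc)]
  exact hr

theorem VV_X_mem (hpb : ¬ p ∣ b) (t : ℕ → ℤ) (Z : ℕ) : VV b t X Z ∈ Op p := by
  rw [VV_eq, DD.Basic.TT_X]
  refine (Op p).sum_mem fun v _ => ?_
  have h : tq b t v = (t v : ℚ) / ((b ^ v : ℕ) : ℚ) := by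
    rw [tq]
    push_cast
    rfl
  rw [h]
  exact div_mem_Op _ _ fun h1 => hpb (hp.1.dvd_of_dvd_pow h1)

theorem itgS_neg {f : ℚ[X]} (hf : ItgS p S b t f) : ItgS p S b t (-f) := by
  obtain ⟨C1, h1⟩ := hf
  refine ⟨C1, fun W q Z ha hq hc => ?_⟩
  have e : -f = C (-1 : ℚ) * f := by simp
  rw [e, VV_C_mul]
  have := (Op p).neg_mem (h1 W q Z ha hq hc)
  simpa using this

theorem coeff_sumS {f : ℚ[X]} (hb : 2 ≤ b) (hS : Spt t ⊆ S) {D : ℕ} (hD : f.natDegree ≤ D)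
    {v : ℕ} (hv : PowerSeries.coeff v (aeval (PowerSeries.mk (tq b t)) f) ≠ 0) :
    DD.IsSumS S D v :=
  DD.Basic.isSumS_set (coeff_sum hb hD hv) hS

theorem itgS_mul (hCOM : SpecCOM) (hCLP : SpecCLP) (hBLK : SpecBLK) (hb : 2 ≤ b)
    (hS : Spt t ⊆ S) {f g : ℚ[X]}
    (hf : ItgS p S b t f) (hg : ItgS p S b t g) : ItgS p S b t (f * g) := by
  obtain ⟨C1, h1⟩ := hf
  obtain ⟨C2, h2⟩ := hg
  set C0 := max C1 C2 with hC0
  set D := max f.natDegree g.natDegree with hD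
  obtain ⟨C', hCC, hcom⟩ := hCOM p C0 2 D hp.1.one_le
  refine ⟨C', fun W q Z ha hq hc => ?_⟩
  have hq1 := adm_pos ha
  obtain ⟨φ, φ1, φ2, φ3, φ4⟩ := hcom S W q Z ha hq hc
  set F : PowerSeries ℚ := aeval (PowerSeries.mk (tq b t)) f with hF
  set G : PowerSeries ℚ := aeval (PowerSeries.mk (tq b t)) g with hG
  have hZ : Cut S p W q C0 Z := cut_mono hp.1.one_le hq1 hCC hc
  have hclp := hCLP 2 Z ![F, G] φ φ1 (by
    intro w hw hs
    refine φ4 w (fun j => ?_) hs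
    have h3 := hw j
    fin_cases j
    · exact coeff_sumS hb hS (le_max_left _ _) h3
    · exact coeff_sumS hb hS (le_max_right _ _) h3)
  have hbF := hBLK p F φ Z (fun k => Cut S p W q C0 k) φ1 φ2 φ3 hZ (by
    intro k _ hk
    exact h1 W q k ha ((le_max_left _ _).trans (hCC.trans hq))
      (cut_mono hp.1.one_le hq1 (le_max_left _ _) hk))
  have hbG := hBLK p G φ Z (fun k => Cut S p W q C0 k) φ1 φ2 φ3 hZ (by
    intro k _ hk
    exact h2 W q k ha ((le_max_right _ _).trans (hCC.trans hq))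
      (cut_mono hp.1.one_le hq1 (le_max_right _ _) hk))
  have e : VV b t (f * g) Z = LL (∏ j, (![F, G] : Fin 2 → PowerSeries ℚ) j) Z := by
    rw [VV, map_mul, Fin.prod_univ_two]
    rfl
  rw [e, hclp, Fin.prod_univ_two, PL]
  refine (Op p).sum_mem fun k _ => ?_
  exact coeff_mul_mem hbF.1 hbG.1 k

theorem itgS_frob (hCOM : SpecCOM) (hCLP : SpecCLP) (hBLK : SpecBLK) (hFRB : SpecFRB)
    (hEX2 : SpecEX2) (hb : 2 ≤ b) {B : ℕ} (hB : ∀ n, |t n| ≤ B) (hS : Spt t ⊆ S) {f g : ℚ[X]}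
    (hf : ItgS p S b t f) (hg : ItgS p S b t g)
    (hfg : aeval (DC.bet b t) f ^ p = p * aeval (DC.bet b t) g) :
    ItgS p S b t (C (1 / (p : ℚ)) * f) := by
  obtain ⟨C1, h1⟩ := hf
  obtain ⟨C2, h2⟩ := hg
  obtain ⟨C3, h3⟩ := hEX2 b t t B p S (f ^ p) (C (p : ℚ) * g) hb hB hB hS hS (by
    rw [map_pow, map_mul, hfg, aeval_C]
    simp)
  obtain ⟨C', hCC, hcom⟩ := hCOM p C1 p f.natDegree hp.1.one_le
  set M := max C' (max C2 C3) with hM
  refine ⟨M + 1, fun W q Z ha hq hc => ?_⟩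
  have hq1 := adm_pos ha
  have hpZ : Cut S p W q M (p * Z) := cut_mul hq1 hc
  have hC'M : C' ≤ M := le_max_left _ _
  have hC2M : C2 ≤ M := (le_max_left _ _).trans (le_max_right _ _)
  have hC3M : C3 ≤ M := (le_max_right _ _).trans (le_max_right _ _)
  obtain ⟨φ, φ1, φ2, φ3, φ4⟩ := hcom S W q (p * Z) ha (by omega)
    (cut_mono hp.1.one_le hq1 hC'M hpZ)
  set F : PowerSeries ℚ := aeval (PowerSeries.mk (tq b t)) f with hF
  have hclp := hCLP p (p * Z) (fun _ => F) φ φ1 (by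
    intro w hw hs
    exact φ4 w (fun j => coeff_sumS hb hS le_rfl (hw j)) hs)
  have hbF := hBLK p F φ (p * Z) (fun k => Cut S p W q C1 k) φ1 φ2 φ3
    (cut_mono hp.1.one_le hq1 (hCC.trans hC'M) hpZ) (by
      intro k _ hk
      exact h1 W q k ha (by omega) hk)
  obtain ⟨r, hr, hfrb⟩ := hFRB p (HH F φ (p * Z)) Z hbF.1
  have hVf : PL (HH F φ (p * Z)) Z = VV b t f Z :=
    hbF.2 Z (Nat.le_mul_of_pos_left _ hp.1.pos)
      (cut_mono hp.1.one_le hq1 (show C1 ≤ M + 1 by omega) hc)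
  have e1 : VV b t (f ^ p) (p * Z) = VV b t f Z ^ p + p * r := by
    rw [← hVf, ← hfrb]
    rw [Finset.prod_const, Finset.prod_const, Finset.card_univ, Fintype.card_fin] at hclp
    rw [← hclp, VV, map_pow]
  have e2 : VV b t (f ^ p) (p * Z) = p * VV b t g (p * Z) := by
    have := h3 W q (p * Z) ha (by omega) (cut_mono hp.1.one_le hq1 hC3M hpZ)
    rwa [VV_C_mul] at this
  have hg' : VV b t g (p * Z) ∈ Op p :=
    h2 W q (p * Z) ha (by omega) (cut_mono hp.1.one_le hq1 hC2M hpZ)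
  have e3 : VV b t f Z ^ p = p * (VV b t g (p * Z) - r) := by
    rw [mul_sub, ← e2, e1]
    ring
  rw [VV_C_mul]
  refine div_mem_of_pow ?_ ((Op p).sub_mem hg' hr) e3
  exact h1 W q Z ha (by omega) (cut_mono hp.1.one_le hq1 (by omega) hc)

/-- the ring of the values of the integral polynomials -/
def RS (hCOM : SpecCOM) (hCLP : SpecCLP) (hBLK : SpecBLK) (p b : ℕ) [hp : Fact p.Prime]
    (S : Set ℕ) (t : ℕ → ℤ) (hS : Spt t ⊆ S) (hb : 2 ≤ b) : Subring ℝ where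
  carrier := {y | ∃ f : ℚ[X], aeval (DC.bet b t) f = y ∧ ItgS p S b t f}
  mul_mem' := by
    rintro y z ⟨f, hf, hf'⟩ ⟨g, hg, hg'⟩
    exact ⟨f * g, by rw [map_mul, hf, hg], itgS_mul hCOM hCLP hBLK hb hS hf' hg'⟩
  one_mem' := by
    refine ⟨C 1, by simp, itgS_C (Op p).one_mem⟩
  add_mem' := by
    rintro y z ⟨f, hf, hf'⟩ ⟨g, hg, hg'⟩
    exact ⟨f + g, by rw [map_add, hf, hg], itgS_add hf' hg'⟩
  zero_mem' := by
    refine ⟨C 0, by simp, itgS_C (Op p).zero_mem⟩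
  neg_mem' := by
    rintro y ⟨f, hf, hf'⟩
    exact ⟨-f, by rw [map_neg, hf], itgS_neg hf'⟩

/-- The theorem in the general form, from the modules. -/
theorem thm2 (hCOM : SpecCOM) (hCLP : SpecCLP) (hBLK : SpecBLK) (hFRB : SpecFRB)
    (hEX2 : SpecEX2) (hALG2 : SpecALG2) (hCNT : SpecCNT) (r b p B : ℕ)
    (t : Fin r → ℕ → ℤ) (x : Fin r → ℝ)
    (hb : 2 ≤ b) (hB : ∀ i n, |t i n| ≤ B) (hp : p.Prime) (hpb : ¬ p ∣ b)
    (hx : ∀ i, x i = DC.bet b (t i)) (halg : ∀ i, IsAlgebraic ℚ (x i))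
    (hram : ∀ P : Ideal (𝓞 (IntermediateField.adjoin ℚ (Set.range x))), P.IsPrime →
      ((p : ℕ) : 𝓞 (IntermediateField.adjoin ℚ (Set.range x))) ∈ P →
      ((p : ℕ) : 𝓞 (IntermediateField.adjoin ℚ (Set.range x))) ∈ P ^ 2 ∨
      ∃ i, ∀ s : 𝓞 (IntermediateField.adjoin ℚ (Set.range x)),
        IsIntegral ℤ (((s : IntermediateField.adjoin ℚ (Set.range x)) : ℝ) * x i) → s ∈ P) :
    ∃ δ : ℝ, 0 < δ ∧ ∃ N₀ : ℕ, ∀ N : ℕ, N₀ ≤ N →
      (N : ℝ) ^ δ ≤ ((Finset.range N).filter fun n => ∃ i, t i n ≠ 0).card := by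
  classical
  have : Fact p.Prime := ⟨hp⟩
  have hp0 : (p : ℝ) ≠ 0 := by exact_mod_cast hp.ne_zero
  -- a primitive element
  obtain ⟨c, hc⟩ := JNTM.prim x halg Finset.univ
  rw [Finset.coe_univ, Set.image_univ] at hc
  set y : ℝ := ∑ i, (c i : ℝ) * x i with hy
  set u : ℕ → ℤ := fun n => ∑ i, c i * t i n with hu
  set S : Set ℕ := {n | ∃ i, t i n ≠ 0} with hS
  have hSt : ∀ i, Spt (t i) ⊆ S := fun i n hn => ⟨i, hn⟩
  have hSu : Spt u ⊆ S := by
    intro n hn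
    by_contra h
    rw [hS, Set.mem_ofPred_eq] at h
    push Not at h
    apply hn
    change ∑ i, c i * t i n = 0
    exact Finset.sum_eq_zero fun i _ => by rw [h i, mul_zero]
  have hyu : DC.bet b u = y := by
    rw [hu, JNTM.bet_sum Finset.univ hb t B hB c, hy]
    exact Finset.sum_congr rfl fun i _ => by rw [hx i]
  set B' : ℕ := B + ∑ i, (c i).natAbs * B with hB'
  have hBt : ∀ i n, |t i n| ≤ (B' : ℤ) := fun i n =>
    (hB i n).trans (by rw [hB']; push_cast; exact le_add_of_nonneg_right (by positivity))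
  have hBu : ∀ n, |u n| ≤ (B' : ℤ) := by
    intro n
    refine (Finset.abs_sum_le_sum_abs _ _).trans ?_
    have h1 : ∀ i ∈ Finset.univ, |c i * t i n| ≤ ((c i).natAbs : ℤ) * B := by
      intro i _
      rw [abs_mul, Int.natCast_natAbs]
      exact mul_le_mul_of_nonneg_left (hB i n) (abs_nonneg _)
    refine (Finset.sum_le_sum h1).trans ?_
    rw [hB']
    push_cast
    exact le_add_of_nonneg_left (by positivity)
  have hyalg : IsAlgebraic ℚ y := by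
    have hmem : y ∈ algebraicClosure ℚ ℝ := by
      rw [hy]
      refine (algebraicClosure ℚ ℝ).sum_mem fun i _ => ?_
      exact (algebraicClosure ℚ ℝ).mul_mem ((algebraicClosure ℚ ℝ).intCast_mem _)
        (mem_algebraicClosure_iff.2 (halg i))
    exact mem_algebraicClosure_iff.1 hmem
  -- the numbers are in the ring
  have hxR : ∀ i, x i ∈ RS hCOM hCLP hBLK p b S u hSu hb := by
    intro i
    have h1 : x i ∈ IntermediateField.adjoin ℚ {y} := by
      rw [← hc]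
      exact IntermediateField.subset_adjoin ℚ _ ⟨i, rfl⟩
    have h2 : x i ∈ (IntermediateField.adjoin ℚ {y}).toSubalgebra := h1
    rw [IntermediateField.adjoin_simple_toSubalgebra_of_isAlgebraic hyalg,
      Algebra.adjoin_singleton_eq_range_aeval] at h2
    obtain ⟨f, hf⟩ := h2
    obtain ⟨C0, hC0⟩ := hEX2 b u (t i) B' p S f X hb hBu (hBt i) hSu (hSt i) (by
      rw [aeval_X, hyu, ← hx i]
      exact hf)
    refine ⟨f, by rw [hyu]; exact hf, C0, fun W q Z ha hq hcut => ?_⟩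
    rw [hC0 W q Z ha hq hcut]
    exact VV_X_mem hpb (t i) Z
  have h1p : (1 / (p : ℝ)) ∈ RS hCOM hCLP hBLK p b S u hSu hb := by
    refine hALG2 p (Fin r) x _ halg hxR ?_ ?_ hram
    · intro s hs
      refine ⟨C (1 / (s : ℚ)), by simp, itgS_C ?_⟩
      have := div_mem_Op (p := p) 1 s hs
      simpa using this
    · rintro y ⟨f, hf, hf'⟩ z ⟨g, hg, hg'⟩ hyz
      refine ⟨C (1 / (p : ℚ)) * f, ?_, ?_⟩
      · rw [map_mul, hf, aeval_C]
        simp [div_eq_inv_mul]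
      · refine itgS_frob hCOM hCLP hBLK hFRB hEX2 hb hBu hSu hf' hg' ?_
        rw [hf, hg, hyz]
  obtain ⟨f, hf, C1, h1⟩ := h1p
  obtain ⟨C2, h2⟩ := hEX2 b u u B' p S f (C (1 / (p : ℚ))) hb hBu hBu hSu hSu (by
    rw [hf, aeval_C]
    simp)
  obtain ⟨δ, hδ, N₀, hN⟩ := hCNT S p (max C1 C2) hp.one_le (by
    intro W q Z ha hq hc
    have hq1 := adm_pos ha
    have e1 := h1 W q Z ha ((le_max_left _ _).trans hq)
      (cut_mono hp.one_le hq1 (le_max_left _ _) hc)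
    have e2 := h2 W q Z ha ((le_max_right _ _).trans hq)
      (cut_mono hp.one_le hq1 (le_max_right _ _) hc)
    rw [VV_C b u _ (cut_pos hq1 hc)] at e2
    rw [e2] at e1
    exact one_div_not_mem e1)
  refine ⟨δ, hδ, max N₀ 1, fun N hNN => ?_⟩
  have h3 := hN N ((le_max_left _ _).trans hNN)
  have h4 : 1 ≤ N := (le_max_right _ _).trans hNN
  refine h3.trans (le_of_eq ?_)
  rw [DD.cnt, Nat.sub_add_cancel h4, Nat.cast_inj]
  congr 1
  ext n
  simp only [Finset.mem_filter]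
  rfl

end Pool.Agent.Lib.MP5b6025.RM
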