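import Pool.Agent.Lib.MP_5b6025_nt.DD.Basic

/-!
# Ramified primes: definitions

`x = ∑ t_n b^(-n)` with bounded integers `t_n`, `p` a prime which does not divide `b` and all of whose
prime divisors in the field `ℚ(x)` are ramified. Proof text: `/team-store/MP_5b6025_RM.md`.
-/

set_option autoImplicit false

open Polynomial

namespace Pool.Agent.Lib.MP5b6025.RM

/-- The ring of the rational numbers whose denominator is not divisible by `p`. -/
def Op (p : ℕ) [hp : Fact p.Prime] : Subring ℚ where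
  carrier := {r | ¬ p ∣ r.den}
  mul_mem' := by
    intro r s hr hs h
    rcases (Nat.Prime.dvd_mul hp.1).1 (h.trans (Rat.mul_den_dvd r s)) with h1 | h1
    · exact hr h1
    · exact hs h1
  one_mem' := by
    intro h
    rw [Rat.den_one] at h
    exact hp.1.one_lt.ne' (Nat.dvd_one.1 h)
  add_mem' := by
    intro r s hr hs h
    rcases (Nat.Prime.dvd_mul hp.1).1 (h.trans (Rat.add_den_dvd r s)) with h1 | h1
    · exact hr h1
    · exact hs h1
  zero_mem' := by
    intro h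
    rw [Rat.den_zero] at h
    exact hp.1.one_lt.ne' (Nat.dvd_one.1 h)
  neg_mem' := by
    intro r hr h
    rw [Rat.neg_den] at h
    exact hr h

/-- The terms of the series. -/
def tq (b : ℕ) (t : ℕ → ℤ) (n : ℕ) : ℚ := (t n : ℚ) / (b : ℚ) ^ n

/-- The support of `t`. -/
def Spt (t : ℕ → ℤ) : Set ℕ := {n | t n ≠ 0}

/-- Sum of the coefficients of the `Y^v`, `v < Z`, of a power series. -/
noncomputable def LL (F : PowerSeries ℚ) (Z : ℕ) : ℚ :=
  ∑ v ∈ Finset.range Z, PowerSeries.coeff v F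

/-- Sum of the coefficients of the `Y^v`, `v < Z`, of a polynomial. -/
noncomputable def PL (P : ℚ[X]) (Z : ℕ) : ℚ := ∑ v ∈ Finset.range Z, P.coeff v

/-- The truncated value `L_Z (f (T))`, `T = ∑ t_n b^(-n) Y^n`. -/
noncomputable def VV (b : ℕ) (t : ℕ → ℤ) (f : ℚ[X]) (Z : ℕ) : ℚ :=
  LL (aeval (PowerSeries.mk (tq b t)) f) Z

/-- Admissible parameters: `q ≥ A + 2` and `q ≥ (log_2 W + 1)^2`. -/
def Adm (S : Set ℕ) (W q : ℕ) : Prop := DD.cnt S W + 2 ≤ q ∧ (Nat.log 2 W + 1) ^ 2 ≤ q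

/-- Cuts of level `C`. -/
structure Cut (S : Set ℕ) (p W q C Z : ℕ) : Prop where
  gap : ∀ i : ℕ, i ≤ C → DD.GapS S (q ^ C) C ((p ^ i * Z : ℕ) : ℤ)
  le : p ^ C * Z + q ^ C ≤ W

/-- The truncated values of `f` at the cuts of some level are `p`-integral. -/
def Itg (p : ℕ) [Fact p.Prime] (b : ℕ) (t : ℕ → ℤ) (f : ℚ[X]) : Prop :=
  ∃ C : ℕ, ∀ W q Z : ℕ, Adm (Spt t) W q → C ≤ q → Cut (Spt t) p W q C Z → VV b t f Z ∈ Op p

/-- The collapsed polynomial `∑_{v < Z} F_v Y^(φ v)`. -/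
noncomputable def HH (F : PowerSeries ℚ) (φ : ℕ → ℕ) (Z : ℕ) : ℚ[X] :=
  ∑ v ∈ Finset.range Z, C (PowerSeries.coeff v F) * X ^ (φ v)

end Pool.Agent.Lib.MP5b6025.RM
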