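import Pool.Agent.Lib.MP_5b6025_nt.RM.Spec

/-!
# Ramified primes, general form: several numbers and poles

Numbers `x_i = ∑ t_i(n) b^(-n)` (`i ∈ ι` finite), `K = ℚ(x_i : i ∈ ι)`, `p ∤ b` prime; every prime ideal
of `𝓞 K` above `p` is ramified or a pole of some `x_i`.
-/

set_option autoImplicit false

open Polynomial NumberField

namespace Pool.Agent.Lib.MP5b6025.RM

/-- The truncated values of `f (T)` are `p`-integral at the cuts of some level with respect to `S`. -/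
def ItgS (p : ℕ) [Fact p.Prime] (S : Set ℕ) (b : ℕ) (t : ℕ → ℤ) (f : ℚ[X]) : Prop :=
  ∃ C : ℕ, ∀ W q Z : ℕ, Adm S W q → C ≤ q → Cut S p W q C Z → VV b t f Z ∈ Op p

/-- Module EX2 [150]: exactness for two expansions. As SpecEXC: `d f, d g ∈ ℤ[X]`; the first half of
`DC.specTAPP` for `(t, d f)` and `(t', d g)` (a cut for `S` gives gaps for both supports) shows
`|VV b t f Z - VV b t' g Z| < 1 / (d b^Z)`, and `d b^Z (VV b t f Z - VV b t' g Z)` is an integer. -/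
def SpecEX2 : Prop :=
  ∀ (b : ℕ) (t t' : ℕ → ℤ) (B p : ℕ) (S : Set ℕ) (f g : ℚ[X]), 2 ≤ b → (∀ n, |t n| ≤ B) →
    (∀ n, |t' n| ≤ B) → Spt t ⊆ S → Spt t' ⊆ S → aeval (DC.bet b t) f = aeval (DC.bet b t') g →
    ∃ C : ℕ, ∀ W q Z : ℕ, Adm S W q → C ≤ q → Cut S p W q C Z → VV b t f Z = VV b t' g Z

/-- Module ALG2: as SpecALG with several numbers, and with the weaker condition: every prime `P` above
`p` is ramified or contains all `s` with `s x_i` integral, for some `i`. Proof: let `𝔟_i` be the ideal of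
these `s`. `1 ∈ 𝔟_i R` (`m x = a`, `(m) = (a, m) 𝔡`, `𝔡 ⊆ 𝔟`, `m = a d_1 + m d_2`, so
`1 = x d_1 + d_2`). Let `𝔟 = ∏ 𝔟_i`, `J = (rad (p) : 𝔟)`; for `θ ∈ J` the set of `r ∈ R` with
`r θ / p ∈ R` is an ideal of `R` containing `𝔟`, so contains `1`: `J / p ⊆ R`. `J` is a radical ideal,
and if `P ⊇ J` is prime then `P` is not a pole (`rad (p) = P C`, `C ⊄ P`, and `𝔟 ⊆ P` gives `C ⊆ J`), so
`p ∈ P^2`; hence `p ∈ J^2` and `1 / p ∈ R`. -/
def SpecALG2 : Prop :=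
  ∀ (p : ℕ) [Fact p.Prime] (ι : Type) [Finite ι] (x : ι → ℝ) (R : Subring ℝ),
    (∀ i, IsAlgebraic ℚ (x i)) → (∀ i, x i ∈ R) →
    (∀ s : ℕ, ¬ p ∣ s → (1 / (s : ℝ)) ∈ R) →
    (∀ y ∈ R, ∀ z ∈ R, y ^ p = p * z → y / p ∈ R) →
    (∀ P : Ideal (𝓞 (IntermediateField.adjoin ℚ (Set.range x))), P.IsPrime →
      ((p : ℕ) : 𝓞 (IntermediateField.adjoin ℚ (Set.range x))) ∈ P →
      ((p : ℕ) : 𝓞 (IntermediateField.adjoin ℚ (Set.range x))) ∈ P ^ 2 ∨
      ∃ i, ∀ s : 𝓞 (IntermediateField.adjoin ℚ (Set.range x)),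
        IsIntegral ℤ (((s : IntermediateField.adjoin ℚ (Set.range x)) : ℝ) * x i) → s ∈ P) →
    (1 / (p : ℝ)) ∈ R

end Pool.Agent.Lib.MP5b6025.RM
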