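import Pool.Agent.Lib.MP_5b6025_nt.RM.EXC
import Pool.Agent.Lib.MP_5b6025_nt.RM.Spec2

/-!
# Ramified primes, module EX2: exactness for two expansions
-/

set_option autoImplicit false

open Polynomial

namespace Pool.Agent.Lib.MP5b6025.RM

namespace EX2M

open EXCM

/-- A gap of level `C` for `S` is a gap for every smaller support. -/
theorem gap_of_cut' {S : Set ℕ} {t : ℕ → ℤ} {p W q C Z D : ℕ} (hS : Spt t ⊆ S)
    (hc : Cut S p W q C Z) (hD : D ≤ C) : DC.Gap t (q ^ C) D (Z : ℤ) := by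
  intro v hv
  have h0 := hc.gap 0 (Nat.zero_le _) v (by
    obtain ⟨ν, h1, h2, h3⟩ := hv
    exact ⟨ν, h1.trans hD, fun x hx => hS (h2 x hx), h3⟩)
  rw [pow_zero, one_mul] at h0
  exact_mod_cast h0

/-- `b^X` times the truncated value is an integer. -/
theorem exists_int (b : ℕ) (hb : 2 ≤ b) (t : ℕ → ℤ) (Q : ℤ[X]) (X : ℕ) :
    ∃ m : ℤ, (m : ℝ) = (b : ℝ) ^ X * DC.TT b t Q (X : ℤ) := by
  have hbR : (b : ℝ) ≠ 0 := by positivity
  refine ⟨∑ v ∈ Finset.range X,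
    (PowerSeries.coeff v (aeval (DC.FF t) Q) : ℤ) * (b : ℤ) ^ (X - v), ?_⟩
  rw [DC.TT, DC.tau, Int.toNat_natCast, Finset.mul_sum]
  push_cast
  refine Finset.sum_congr rfl fun v hv => ?_
  rw [Finset.mem_range] at hv
  rw [pow_sub₀ _ hbR hv.le]
  field_simp

theorem pos_of_cut {S : Set ℕ} {p W q C Z : ℕ} (hc : Cut S p W q C Z) (hC : 1 ≤ C) (hq : 1 ≤ q) :
    1 ≤ p := by
  by_contra hp
  have hp0 : p = 0 := by omega
  have h1 := hc.gap 1 hC 0 ⟨0, by simp, by simp, by simp⟩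
  rw [hp0, pow_one, zero_mul, Nat.cast_zero, zero_add] at h1
  have h3 : (0 : ℤ) < ((q ^ C : ℕ) : ℤ) := by positivity
  rcases h1 with h1 | h1
  · exact lt_irrefl _ h1
  · exact absurd h1 (not_le.2 h3)

theorem aeval_zsmul_map (x : ℝ) (Q : ℤ[X]) (f : ℚ[X]) (d : ℤ) (h : Q.map (algebraMap ℤ ℚ) = d • f) :
    aeval x Q = d * aeval x f := by
  rw [← aeval_map_algebraMap ℚ, h, map_zsmul, zsmul_eq_mul]

end EX2M

open EXCM EX2M in
/-- Module EX2. -/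
theorem specEX2 : SpecEX2 := by
  intro b t t' B p S f g hb hB hB' hS hS' h0
  obtain ⟨d₁, hd₁, hQ₁⟩ := IsLocalization.integerNormalization_spec (nonZeroDivisors ℤ) f
  obtain ⟨Q₁, hQ₁def⟩ : ∃ Q : ℤ[X], Q = IsLocalization.integerNormalization (nonZeroDivisors ℤ) f :=
    ⟨_, rfl⟩
  rw [← hQ₁def] at hQ₁
  obtain ⟨d₂, hd₂, hQ₂⟩ := IsLocalization.integerNormalization_spec (nonZeroDivisors ℤ) g
  obtain ⟨Q₂, hQ₂def⟩ : ∃ Q : ℤ[X], Q = IsLocalization.integerNormalization (nonZeroDivisors ℤ) g :=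
    ⟨_, rfl⟩
  rw [← hQ₂def] at hQ₂
  have hd₁0 : d₁ ≠ 0 := nonZeroDivisors.ne_zero hd₁
  have hd₂0 : d₂ ≠ 0 := nonZeroDivisors.ne_zero hd₂
  obtain ⟨d, hd⟩ : ∃ d : ℤ, d = d₁ * d₂ := ⟨_, rfl⟩
  have hd0 : d ≠ 0 := by
    rw [hd]
    exact mul_ne_zero hd₁0 hd₂0
  obtain ⟨F, hF⟩ : ∃ F : ℤ[X], F = d₂ • Q₁ := ⟨_, rfl⟩
  obtain ⟨G, hG⟩ : ∃ G : ℤ[X], G = d₁ • Q₂ := ⟨_, rfl⟩
  have hFm : F.map (algebraMap ℤ ℚ) = d • f := by
    have e : F.map (algebraMap ℤ ℚ) = d₂ • Q₁.map (algebraMap ℤ ℚ) := by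
      rw [hF]
      exact map_zsmul (mapRingHom (algebraMap ℤ ℚ)) d₂ Q₁
    rw [e, hQ₁, smul_smul, hd, mul_comm]
  have hGm : G.map (algebraMap ℤ ℚ) = d • g := by
    have e : G.map (algebraMap ℤ ℚ) = d₁ • Q₂.map (algebraMap ℤ ℚ) := by
      rw [hG]
      exact map_zsmul (mapRingHom (algebraMap ℤ ℚ)) d₁ Q₂
    rw [e, hQ₂, smul_smul, hd]
  have hFG : aeval (DC.bet b t) F = aeval (DC.bet b t') G := by
    rw [aeval_zsmul_map _ F f d hFm, aeval_zsmul_map _ G g d hGm, h0]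
  obtain ⟨B', hB'def⟩ : ∃ B' : ℕ, B' = max B 1 := ⟨_, rfl⟩
  obtain ⟨D, hD⟩ : ∃ D : ℕ, D = max 1 (max F.natDegree G.natDegree) := ⟨_, rfl⟩
  have hB1 : 1 ≤ B' := by rw [hB'def]; exact le_max_right _ _
  have hBt : ∀ n, |t n| ≤ B' := by
    intro n
    refine (hB n).trans ?_
    rw [hB'def]
    exact_mod_cast le_max_left _ _
  have hBt' : ∀ n, |t' n| ≤ B' := by
    intro n
    refine (hB' n).trans ?_
    rw [hB'def]
    exact_mod_cast le_max_left _ _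
  have hD1 : 1 ≤ D := by rw [hD]; exact le_max_left _ _
  have hFD : F.natDegree ≤ D := by
    rw [hD]; exact (le_max_left _ _).trans (le_max_right _ _)
  have hGD : G.natDegree ≤ D := by
    rw [hD]; exact (le_max_right _ _).trans (le_max_right _ _)
  -- the constant
  obtain ⟨a, ha⟩ : ∃ a : ℕ, (DC.l1 F + DC.l1 G) * (2 * (B' : ℝ) ^ (D + 1)) < 2 ^ a :=
    pow_unbounded_of_one_lt _ (by norm_num)
  refine ⟨2 * a + (D + 1) ^ 2 + 2, ?_⟩
  intro W q Z hA hq hc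
  obtain ⟨C, hC⟩ : ∃ C : ℕ, C = 2 * a + (D + 1) ^ 2 + 2 := ⟨_, rfl⟩
  rw [← hC] at hq hc
  have hC1 : 1 ≤ C := by omega
  have hDC : D ≤ C := by
    rw [hC]
    nlinarith
  have hq2 : 2 ≤ q := by
    have := hA.1
    omega
  have hqC : q ≤ q ^ C := Nat.le_self_pow (by omega) q
  have hp : 1 ≤ p := pos_of_cut hc hC1 (by omega)
  have hZW : Z ≤ W := by
    have h1 := hc.le
    have h2 : 1 ≤ p ^ C := Nat.one_le_pow _ _ hp
    have h3 : Z ≤ p ^ C * Z := Nat.le_mul_of_pos_left _ (by omega)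
    omega
  have hDW : D ≤ W := by
    have h1 := hc.le
    omega
  have hgap : DC.Gap t ((q ^ C : ℕ) : ℕ) D (Z : ℤ) := gap_of_cut' hS hc hDC
  have hgap' : DC.Gap t' ((q ^ C : ℕ) : ℕ) D (Z : ℤ) := gap_of_cut' hS' hc hDC
  have hl1 : 0 ≤ DC.l1 F := Finset.sum_nonneg fun _ _ => abs_nonneg _
  have hl1' : 0 ≤ DC.l1 G := Finset.sum_nonneg fun _ _ => abs_nonneg _
  have hlt : (DC.l1 F + DC.l1 G) * DC.GG B' D W < (b : ℝ) ^ (q ^ C) := by
    obtain ⟨L, hL⟩ : ∃ L : ℕ, L = Nat.log 2 W + 1 := ⟨_, rfl⟩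
    have hL2 : L ^ 2 ≤ q := by rw [hL]; exact hA.2
    have hW : ((W : ℝ) + 1) ≤ 2 ^ L := by
      have h1 : W < 2 ^ (Nat.log 2 W + 1) := Nat.lt_pow_succ_log_self (by norm_num) W
      rw [← hL] at h1
      exact_mod_cast h1
    have h1 : ((W : ℝ) + 1) ^ (D + 1) ≤ 2 ^ (L * (D + 1)) := by
      rw [pow_mul]
      exact pow_le_pow_left₀ (by positivity) hW _
    have h2 : (DC.l1 F + DC.l1 G) * DC.GG B' D W ≤
        (DC.l1 F + DC.l1 G) * (2 * (B' : ℝ) ^ (D + 1)) * 2 ^ (L * (D + 1)) := by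
      rw [DC.GG, mul_pow]
      calc (DC.l1 F + DC.l1 G) * (2 * ((B' : ℝ) ^ (D + 1) * ((W : ℝ) + 1) ^ (D + 1))) =
            (DC.l1 F + DC.l1 G) * (2 * (B' : ℝ) ^ (D + 1)) * ((W : ℝ) + 1) ^ (D + 1) := by ring
        _ ≤ _ := mul_le_mul_of_nonneg_left h1 (by positivity)
    have h3 : a + L * (D + 1) ≤ q := by
      have h4 : 2 * (L * (D + 1)) ≤ L ^ 2 + (D + 1) ^ 2 := by
        have := two_mul_le_add_sq L (D + 1)
        linarith
      omega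
    calc (DC.l1 F + DC.l1 G) * DC.GG B' D W ≤
          (DC.l1 F + DC.l1 G) * (2 * (B' : ℝ) ^ (D + 1)) * 2 ^ (L * (D + 1)) := h2
      _ < 2 ^ a * 2 ^ (L * (D + 1)) := mul_lt_mul_of_pos_right ha (by positivity)
      _ = 2 ^ (a + L * (D + 1)) := by rw [pow_add]
      _ ≤ 2 ^ (q ^ C) := pow_le_pow_right₀ (by norm_num) (h3.trans hqC)
      _ ≤ (b : ℝ) ^ (q ^ C) := pow_le_pow_left₀ (by norm_num) (by exact_mod_cast hb) _
  have hT := (DC.specTAPP b t B' D W (q ^ C) F Z hb hB1 hBt hD1 hDW hFD hZW hgap).1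
  have hT' := (DC.specTAPP b t' B' D W (q ^ C) G Z hb hB1 hBt' hD1 hDW hGD hZW hgap').1
  rw [hFG] at hT
  have hbR : (0 : ℝ) < b := by positivity
  -- the difference
  have hdiff : |DC.TT b t F (Z : ℤ) - DC.TT b t' G (Z : ℤ)| < 1 / (b : ℝ) ^ Z := by
    have h1 : |DC.TT b t F (Z : ℤ) - DC.TT b t' G (Z : ℤ)| ≤
        DC.l1 F * DC.GG B' D W / (b : ℝ) ^ (Z + q ^ C) + DC.l1 G * DC.GG B' D W / (b : ℝ) ^ (Z + q ^ C) := by
      have h2 : DC.TT b t F (Z : ℤ) - DC.TT b t' G (Z : ℤ) =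
          (DC.TT b t F (Z : ℤ) - aeval (DC.bet b t') G) -
            (DC.TT b t' G (Z : ℤ) - aeval (DC.bet b t') G) := by ring
      rw [h2]
      exact (abs_sub _ _).trans (add_le_add hT hT')
    have h3 : DC.l1 F * DC.GG B' D W / (b : ℝ) ^ (Z + q ^ C) +
        DC.l1 G * DC.GG B' D W / (b : ℝ) ^ (Z + q ^ C) =
        ((DC.l1 F + DC.l1 G) * DC.GG B' D W) / ((b : ℝ) ^ Z * (b : ℝ) ^ (q ^ C)) := by
      rw [pow_add]
      ring
    rw [h3] at h1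
    refine lt_of_le_of_lt h1 ?_
    rw [div_lt_div_iff₀ (by positivity) (by positivity), one_mul, mul_comm ((b : ℝ) ^ Z)]
    exact mul_lt_mul_of_pos_right hlt (by positivity)
  obtain ⟨m, hm⟩ := exists_int b hb t F Z
  obtain ⟨m', hm'⟩ := exists_int b hb t' G Z
  have hmm : m = m' := by
    have h1 : |((m - m' : ℤ) : ℝ)| < 1 := by
      push_cast
      rw [hm, hm', ← mul_sub, abs_mul, abs_of_pos (by positivity : (0 : ℝ) < (b : ℝ) ^ Z)]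
      calc (b : ℝ) ^ Z * |DC.TT b t F (Z : ℤ) - DC.TT b t' G (Z : ℤ)| <
            (b : ℝ) ^ Z * (1 / (b : ℝ) ^ Z) := mul_lt_mul_of_pos_left hdiff (by positivity)
        _ = 1 := by field_simp
    have h2 : |m - m'| < 1 := by exact_mod_cast h1
    have h3 := Int.abs_lt_one_iff.1 h2
    omega
  have hTT : DC.TT b t F (Z : ℤ) = DC.TT b t' G (Z : ℤ) := by
    have h1 : (b : ℝ) ^ Z * DC.TT b t F (Z : ℤ) = (b : ℝ) ^ Z * DC.TT b t' G (Z : ℤ) := by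
      rw [← hm, ← hm', hmm]
    exact mul_left_cancel₀ (by positivity) h1
  rw [← cast_VV, ← cast_VV, hFm, hGm, VV_smul, VV_smul] at hTT
  have h5 : (d : ℚ) * VV b t f Z = (d : ℚ) * VV b t' g Z := by exact_mod_cast hTT
  exact mul_left_cancel₀ (by exact_mod_cast hd0) h5

end Pool.Agent.Lib.MP5b6025.RM
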